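import Pool.Agent.LibSt16B3.FamL
import Pool.Agent.LibSt16.Place

/-!
# The homomorphisms `al`, `be` (block III/IV of MP_8b67e9)
-/

set_option autoImplicit false

noncomputable section

namespace St16B3

open IsLocalRing
open St16 (Place TT EE)

/-! ### homomorphisms to `ℚ` -/

theorem exists_hom {K : Type} [CommGroup K] (a b : K)
    (hab : ∀ j k : ℤ, a ^ j * b ^ k = 1 → j = 0 ∧ k = 0) (r s : ℚ) :
    ∃ al : K →* Multiplicative ℚ, Multiplicative.toAdd (al a) = r ∧
      Multiplicative.toAdd (al b) = s := by
  let f : (ℤ × ℤ) →+ Additive K :=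
    { toFun := fun x => Additive.ofMul (a ^ x.1 * b ^ x.2)
      map_zero' := by simp
      map_add' := by
        intro x y
        rw [← ofMul_mul]
        congr 1
        rw [Prod.fst_add, Prod.snd_add, zpow_add, zpow_add]
        exact mul_mul_mul_comm _ _ _ _ }
  have hf : Function.Injective f := by
    rw [injective_iff_map_eq_zero]
    rintro ⟨j, k⟩ h
    obtain ⟨h1, h2⟩ := hab j k (Additive.ofMul.injective h)
    rw [h1, h2]
    rfl
  let g : (ℤ × ℤ) →+ ℚ :=
    { toFun := fun x => x.1 * r + x.2 * s
      map_zero' := by simp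
      map_add' := by
        intro x y
        push_cast [Prod.fst_add, Prod.snd_add]
        ring }
  obtain ⟨h, hh⟩ := (Module.Baer.of_divisible ℚ).extension_property_addMonoidHom f hf g
  have key : ∀ x, h (f x) = g x := fun x => DFunLike.congr_fun hh x
  refine ⟨{ toFun := fun x => Multiplicative.ofAdd (h (Additive.ofMul x))
            map_one' := by rw [ofMul_one, map_zero]; rfl
            map_mul' := by
              intro x y
              rw [ofMul_mul, map_add]
              rfl }, ?_, ?_⟩
  · have h1 := key (1, 0)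
    have e : f (1, 0) = Additive.ofMul a := by
      change Additive.ofMul (a ^ (1 : ℤ) * b ^ (0 : ℤ)) = _
      rw [zpow_one, zpow_zero, mul_one]
    rw [e] at h1
    change h (Additive.ofMul a) = r
    rw [h1]
    change ((1 : ℤ) : ℚ) * r + ((0 : ℤ) : ℚ) * s = r
    push_cast
    ring
  · have h1 := key (0, 1)
    have e : f (0, 1) = Additive.ofMul b := by
      change Additive.ofMul (a ^ (0 : ℤ) * b ^ (1 : ℤ)) = _
      rw [zpow_one, zpow_zero, one_mul]
    rw [e] at h1
    change h (Additive.ofMul b) = s
    rw [h1]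
    change ((0 : ℤ) : ℚ) * r + ((1 : ℤ) : ℚ) * s = s
    push_cast
    ring

/-! ### the units of a place -/

section

variable {A L : Type} [CommRing A] [IsDomain A] [IsDiscreteValuationRing A] [Field L] [CharZero L]
  [Algebra A L] [IsFractionRing A L]

/-- the embedding of `ℚ(i)` given by a place -/
def evI (Q : Place L A) (z : EE) : L := (z.re : L) + (z.im : L) * algebraMap A L Q.i

omit [IsDomain A] [IsDiscreteValuationRing A] [CharZero L] [IsFractionRing A L] in
theorem I_sq (Q : Place L A) : algebraMap A L Q.i ^ 2 = -1 := by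
  rw [← map_pow, Q.isq, map_neg, map_one]

omit [IsDomain A] [IsDiscreteValuationRing A] [IsFractionRing A L] in
theorem evI_mul (Q : Place L A) (z w : EE) : evI Q (z * w) = evI Q z * evI Q w := by
  have h := I_sq Q
  unfold evI
  rw [QuadraticAlgebra.re_mul, QuadraticAlgebra.im_mul]
  push_cast
  linear_combination (-(z.im : L) * w.im) * h

omit [IsDomain A] [IsDiscreteValuationRing A] [CharZero L] [IsFractionRing A L] in
theorem evI_one (Q : Place L A) : evI Q 1 = 1 := by
  unfold evI
  rw [QuadraticAlgebra.re_one, QuadraticAlgebra.im_one]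
  simp

theorem TT_ne (z : TT) : (z : EE).re ≠ 0 ∨ (z : EE).im ≠ 0 := by
  by_contra h
  push Not at h
  have h1 : (z : EE) = 0 := QuadraticAlgebra.ext h.1 h.2
  have h2 := Unitary.star_mul_self_of_mem z.2
  rw [h1, mul_zero] at h2
  exact zero_ne_one h2

/-- the unit of `A` given by an element of norm one of `ℚ(i)` -/
def un (Q : Place L A) : TT →* Aˣ where
  toFun := fun z => (Q.units (z : EE).re (z : EE).im (TT_ne z)).choose
  map_one' := by
    apply Units.ext
    apply IsFractionRing.injective A L
    rw [(Q.units _ _ (TT_ne 1)).choose_spec]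
    change evI Q 1 = algebraMap A L ((1 : Aˣ) : A)
    rw [evI_one, Units.val_one, map_one]
  map_mul' := by
    intro z w
    apply Units.ext
    apply IsFractionRing.injective A L
    rw [(Q.units _ _ (TT_ne (z * w))).choose_spec, Units.val_mul, map_mul,
      (Q.units _ _ (TT_ne z)).choose_spec, (Q.units _ _ (TT_ne w)).choose_spec]
    exact evI_mul Q z w

theorem un_spec (Q : Place L A) (z : TT) :
    algebraMap A L ((un Q z : Aˣ) : A) = ((z : EE).re : L) + ((z : EE).im : L) * algebraMap A L Q.i :=
  (Q.units _ _ (TT_ne z)).choose_spec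

/-- the class of the unit in the residue field -/
def uk (Q : Place L A) : TT →* (ResidueField A)ˣ :=
  (Units.map (residue A : A →* ResidueField A)).comp (un Q)

theorem uk_apply (Q : Place L A) (z : TT) :
    uk Q z = Units.map (residue A : A →* ResidueField A) (un Q z) := rfl

theorem uk_injective (Q : Place L A) : Function.Injective (uk Q) := by
  rw [injective_iff_map_eq_one]
  intro z hz
  by_contra hne
  -- `z - 1` is a unit of `A`
  have h1 : (z : EE).re - 1 ≠ 0 ∨ (z : EE).im ≠ 0 := by
    by_contra h
    push Not at h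
    apply hne
    apply Subtype.ext
    refine QuadraticAlgebra.ext ?_ ?_
    · have := sub_eq_zero.mp h.1
      rw [this]
      rfl
    · rw [h.2]
      rfl
  obtain ⟨v, hv⟩ := Q.units _ _ h1
  have h2 : (v : A) = (un Q z : A) - 1 := by
    apply IsFractionRing.injective A L
    rw [hv, map_sub, un_spec, map_one]
    push_cast
    ring
  have h3 : residue A (un Q z : A) = 1 := by
    have := congrArg Units.val hz
    exact this
  have h4 : residue A (v : A) = 0 := by
    rw [h2, map_sub, h3, map_one, sub_self]
  have h5 : (v : A) ∈ maximalIdeal A := (residue_eq_zero_iff _).mp h4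
  rw [mem_maximalIdeal, mem_nonunits_iff] at h5
  exact h5 v.isUnit

/-- **the homomorphisms `al`, `be`** -/
theorem exists_al_be (Q : Place L A) (a b : TT)
    (hab : ∀ j k : ℤ, a ^ j * b ^ k = 1 → j = 0 ∧ k = 0) :
    ∃ al be : (ResidueField A)ˣ →* Multiplicative ℚ,
      va al (uk Q a) = 1 ∧ va al (uk Q b) = 0 ∧ va be (uk Q a) = 0 ∧ va be (uk Q b) = 1 := by
  have h : ∀ j k : ℤ, uk Q a ^ j * uk Q b ^ k = 1 → j = 0 ∧ k = 0 := by
    intro j k hjk
    apply hab
    apply uk_injective Q
    rw [map_mul, map_zpow, map_zpow, map_one]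
    exact hjk
  obtain ⟨al, h1, h2⟩ := exists_hom (uk Q a) (uk Q b) h 1 0
  obtain ⟨be, h3, h4⟩ := exists_hom (uk Q a) (uk Q b) h 0 1
  exact ⟨al, be, h1, h2, h3, h4⟩

end

end St16B3
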