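import Pool.Agent.LibSt16B3.Ratio

/-!
# Leading vectors (block III of MP_8b67e9)

Lattices are `O`-submodules of `ℕ →₀ L`. `Fl i` = the vectors with coordinates only at places `< i`,
`shV n` = shift by `n` places. For `A < B` the leading place is the smallest `i` such that
`B ∩ Fl (i + 1)` is not contained in `A`; `gen A B` is a vector of `B ∩ Fl (i + 1)` outside `A` whose
coordinate at `i` depends only on the two coordinate ideals.
-/

set_option autoImplicit false

namespace St16B3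

open IsLocalRing

variable {O L : Type} [CommRing O] [Field L] [Algebra O L]

/-- vectors with coordinates only at places `< i` -/
def Fl (O : Type) {L : Type} [CommRing O] [Field L] [Algebra O L] (i : ℕ) :
    Submodule O (ℕ →₀ L) where
  carrier := {x | ∀ j, i ≤ j → x j = 0}
  add_mem' := fun ha hb j hj => by rw [Finsupp.add_apply, ha j hj, hb j hj, add_zero]
  zero_mem' := fun _ _ => rfl
  smul_mem' := fun c x hx j hj => by rw [Finsupp.smul_apply, hx j hj, smul_zero]

/-- the shift by `n` places -/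
noncomputable def shV (O : Type) {L : Type} [CommRing O] [Field L] [Algebra O L] (n : ℕ) :
    (ℕ →₀ L) →ₗ[O] (ℕ →₀ L) where
  toFun := fun x => Finsupp.mapDomain (· + n) x
  map_add' := fun x y => Finsupp.mapDomain_add
  map_smul' := fun c x => Finsupp.mapDomain_smul c x

theorem shV_apply_add (n : ℕ) (x : ℕ →₀ L) (j : ℕ) : shV O n x (j + n) = x j :=
  Finsupp.mapDomain_apply (add_left_injective n) x j

theorem shV_apply_lt (n : ℕ) (x : ℕ →₀ L) (j : ℕ) (hj : j < n) : shV O n x j = 0 :=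
  Finsupp.mapDomain_notin_range x j (by rintro ⟨k, hk⟩; simp only at hk; omega)

theorem shV_injective (n : ℕ) : Function.Injective (shV O n : (ℕ →₀ L) →ₗ[O] (ℕ →₀ L)) := by
  intro x y h
  ext j
  rw [← shV_apply_add (O := O) n x j, h, shV_apply_add]

/-- coordinates at place `i` of the vectors of `A ∩ Fl (i + 1)` -/
def coo (A : Submodule O (ℕ →₀ L)) (i : ℕ) : Submodule O L where
  carrier := {c | ∃ x ∈ A, x ∈ Fl O (i + 1) ∧ x i = c}
  add_mem' := by
    rintro _ _ ⟨x, hx, hx', rfl⟩ ⟨y, hy, hy', rfl⟩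
    exact ⟨x + y, A.add_mem hx hy, (Fl O (i + 1)).add_mem hx' hy', rfl⟩
  zero_mem' := ⟨0, A.zero_mem, (Fl O (i + 1)).zero_mem, rfl⟩
  smul_mem' := by
    rintro c _ ⟨x, hx, hx', rfl⟩
    exact ⟨c • x, A.smul_mem c hx, (Fl O (i + 1)).smul_mem c hx', rfl⟩

open Classical in
/-- the leading place of a pair `A < B` -/
noncomputable def pla (A B : Submodule O (ℕ →₀ L)) : ℕ :=
  if h : ∃ i, ¬ (B ⊓ Fl O (i + 1) ≤ A) then Nat.find h else 0

theorem exists_pla {A B : Submodule O (ℕ →₀ L)} (h : A < B) : ∃ i, ¬ (B ⊓ Fl O (i + 1) ≤ A) := by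
  obtain ⟨x, hx, hn⟩ := SetLike.exists_of_lt h
  refine ⟨x.support.sup id, fun hle => hn (hle ⟨hx, fun j hj => ?_⟩)⟩
  by_contra hne
  have := Finset.le_sup (f := id) (Finsupp.mem_support_iff.mpr hne)
  simp only [id] at this
  omega

theorem pla_spec {A B : Submodule O (ℕ →₀ L)} (h : A < B) :
    (¬ (B ⊓ Fl O (pla A B + 1) ≤ A)) ∧ B ⊓ Fl O (pla A B) ≤ A := by
  classical
  have hex := exists_pla h
  have e : pla A B = Nat.find hex := dif_pos hex
  rw [e]
  refine ⟨Nat.find_spec hex, ?_⟩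
  rcases Nat.eq_zero_or_pos (Nat.find hex) with h0 | h0
  · rw [h0]
    rintro x ⟨-, hx⟩
    have : x = 0 := by
      ext j
      exact hx j (Nat.zero_le _)
    rw [this]
    exact A.zero_mem
  · have h1 := Nat.find_min hex (m := Nat.find hex - 1) (by omega)
    rw [not_not, Nat.sub_add_cancel h0] at h1
    exact h1

theorem pla_unique {A B : Submodule O (ℕ →₀ L)} {i : ℕ} (h1 : ¬ (B ⊓ Fl O (i + 1) ≤ A))
    (h2 : B ⊓ Fl O i ≤ A) : pla A B = i := by
  classical
  have hex : ∃ i, ¬ (B ⊓ Fl O (i + 1) ≤ A) := ⟨i, h1⟩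
  have e : pla A B = Nat.find hex := dif_pos hex
  rw [e, Nat.find_eq_iff]
  refine ⟨h1, fun j hj => ?_⟩
  rw [not_not]
  refine le_trans (inf_le_inf_left _ ?_) h2
  intro x hx k hk
  exact hx k (by omega)

open Classical in
/-- an element of the second submodule outside the first -/
noncomputable def pick (I J : Submodule O L) : L := if h : ∃ c ∈ J, c ∉ I then h.choose else 0

theorem pick_spec {I J : Submodule O L} (h : ∃ c ∈ J, c ∉ I) : pick I J ∈ J ∧ pick I J ∉ I := by
  unfold pick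
  rw [dif_pos h]
  exact h.choose_spec

theorem coo_lt {A B : Submodule O (ℕ →₀ L)} (h : A < B) :
    ∃ c ∈ coo B (pla A B), c ∉ coo A (pla A B) := by
  obtain ⟨h1, h2⟩ := pla_spec h
  obtain ⟨x, ⟨hx, hx'⟩, hn⟩ := Set.not_subset.mp h1
  refine ⟨x (pla A B), ⟨x, hx, hx', rfl⟩, ?_⟩
  rintro ⟨y, hy, hy', hxy⟩
  apply hn
  have h3 : x - y ∈ B ⊓ Fl O (pla A B) := by
    refine ⟨B.sub_mem hx (h.le hy), fun j hj => ?_⟩
    rcases Nat.eq_or_lt_of_le hj with rfl | hj
    · rw [Finsupp.sub_apply, hxy, sub_self]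
    · rw [Finsupp.sub_apply, hx' j hj, hy' j hj, sub_zero]
  have := A.add_mem (h2 h3) hy
  rwa [sub_add_cancel] at this

/-- `x` is a leading vector of the pair `A < B` -/
def IsLead (A B : Submodule O (ℕ →₀ L)) (x : ℕ →₀ L) : Prop :=
  x ∈ B ∧ x ∈ Fl O (pla A B + 1) ∧
    x (pla A B) = pick (coo A (pla A B)) (coo B (pla A B))

theorem exists_lead {A B : Submodule O (ℕ →₀ L)} (h : A < B) : ∃ x, IsLead A B x := by
  obtain ⟨x, hx, hx', hxe⟩ := (pick_spec (coo_lt h)).1
  exact ⟨x, hx, hx', hxe⟩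

theorem IsLead.not_mem {A B : Submodule O (ℕ →₀ L)} (h : A < B) {x : ℕ →₀ L} (hx : IsLead A B x) :
    x ∉ A := by
  intro hn
  apply (pick_spec (coo_lt h)).2
  rw [← hx.2.2]
  exact ⟨x, hn, hx.2.1, rfl⟩

/-- two leading vectors are congruent -/
theorem IsLead.sub_mem {A B : Submodule O (ℕ →₀ L)} (h : A < B) {x y : ℕ →₀ L}
    (hx : IsLead A B x) (hy : IsLead A B y) : x - y ∈ A := by
  apply (pla_spec h).2
  refine ⟨B.sub_mem hx.1 hy.1, fun j hj => ?_⟩
  rcases Nat.eq_or_lt_of_le hj with rfl | hj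
  · rw [Finsupp.sub_apply, hx.2.2, hy.2.2, sub_self]
  · rw [Finsupp.sub_apply, hx.2.1 j hj, hy.2.1 j hj, sub_zero]

open Classical in
/-- a leading vector of the pair `A < B` -/
noncomputable def gen (A B : Submodule O (ℕ →₀ L)) : ℕ →₀ L :=
  if h : ∃ x, IsLead A B x then h.choose else 0

theorem gen_lead {A B : Submodule O (ℕ →₀ L)} (h : A < B) : IsLead A B (gen A B) := by
  unfold gen
  rw [dif_pos (exists_lead h)]
  exact (exists_lead h).choose_spec

/-! ### block sums -/

section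

variable {n : ℕ}

/-- intersection of a block sum with a flag space of the first block -/
theorem sum_inf_low {A M : Submodule O (ℕ →₀ L)} (hA : A ≤ Fl O n) {i : ℕ} (hi : i ≤ n) :
    (A ⊔ M.map (shV O n)) ⊓ Fl O i = A ⊓ Fl O i := by
  apply le_antisymm
  · rintro x ⟨hx, hx'⟩
    obtain ⟨a, ha, b, hb, rfl⟩ := Submodule.mem_sup.mp hx
    obtain ⟨m, hm, rfl⟩ := hb
    have hb0 : shV O n m = 0 := by
      ext j
      by_cases hj : j < n
      · rw [shV_apply_lt (O := O) n m j hj]; rfl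
      · have h1 := hx' j (by omega)
        rw [Finsupp.add_apply, hA ha j (by omega), zero_add] at h1
        rw [h1]; rfl
    rw [hb0, add_zero] at hx' ⊢
    exact ⟨ha, hx'⟩
  · exact inf_le_inf_right _ le_sup_left

/-- the first block determines the leading vectors -/
theorem lead_block_one {A B M : Submodule O (ℕ →₀ L)} (h : A < B) (hB : B ≤ Fl O n) {x : ℕ →₀ L}
    (hx : IsLead A B x) : IsLead (A ⊔ M.map (shV O n)) (B ⊔ M.map (shV O n)) x := by
  have hA : A ≤ Fl O n := h.le.trans hB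
  -- the place is `< n`
  have hp : pla A B < n := by
    by_contra hn
    have h1 := (pla_spec h).2
    apply (lt_irrefl A)
    refine lt_of_lt_of_le h ?_
    refine le_trans (le_inf le_rfl (hB.trans ?_)) h1
    intro y hy j hj
    exact hy j (by omega)
  have e : ∀ i ≤ n, (B ⊔ M.map (shV O n)) ⊓ Fl O i = B ⊓ Fl O i := fun i hi =>
    sum_inf_low hB hi
  have hpl : pla (A ⊔ M.map (shV O n)) (B ⊔ M.map (shV O n)) = pla A B := by
    apply pla_unique
    · rw [e _ (by omega)]
      intro hle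
      apply (pla_spec h).1
      refine le_trans (le_inf (le_refl _) inf_le_right) ?_
      refine le_trans (inf_le_inf_right _ hle) ?_
      rw [sum_inf_low hA (by omega)]
      exact inf_le_left
    · rw [e _ (by omega)]
      exact (pla_spec h).2.trans le_sup_left
  have hco : ∀ {C : Submodule O (ℕ →₀ L)}, C ≤ Fl O n →
      coo (C ⊔ M.map (shV O n)) (pla A B) = coo C (pla A B) := by
    intro C hC
    ext c
    constructor
    · rintro ⟨y, hy, hy', rfl⟩
      have := (sum_inf_low (M := M) hC (show pla A B + 1 ≤ n by omega)).le ⟨hy, hy'⟩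
      exact ⟨y, this.1, hy', rfl⟩
    · rintro ⟨y, hy, hy', rfl⟩
      exact ⟨y, Submodule.mem_sup_left hy, hy', rfl⟩
  refine ⟨Submodule.mem_sup_left hx.1, ?_, ?_⟩
  · rw [hpl]; exact hx.2.1
  · rw [hpl, hco hA, hco hB]; exact hx.2.2

/-- intersection of a block sum with a flag space of the second block -/
theorem sum_inf_high {A M : Submodule O (ℕ →₀ L)} (hM : M ≤ Fl O n) {i : ℕ} :
    (M ⊔ A.map (shV O n)) ⊓ Fl O (i + n) = M ⊔ (A ⊓ Fl O i).map (shV O n) := by
  apply le_antisymm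
  · rintro x ⟨hx, hx'⟩
    obtain ⟨m, hm, b, hb, rfl⟩ := Submodule.mem_sup.mp hx
    obtain ⟨a, ha, rfl⟩ := hb
    refine Submodule.add_mem_sup hm ⟨a, ⟨ha, fun j hj => ?_⟩, rfl⟩
    have h1 := hx' (j + n) (by omega)
    rw [Finsupp.add_apply, hM hm (j + n) (by omega), zero_add, shV_apply_add] at h1
    exact h1
  · refine sup_le (le_inf le_sup_left fun x hx j hj => hM hx j (by omega)) ?_
    rintro _ ⟨a, ⟨ha, ha'⟩, rfl⟩
    refine ⟨Submodule.mem_sup_right ⟨a, ha, rfl⟩, fun j hj => ?_⟩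
    obtain ⟨k, rfl⟩ : ∃ k, j = k + n := ⟨j - n, by omega⟩
    rw [shV_apply_add]
    exact ha' k (by omega)

theorem mem_of_shV_mem {A M : Submodule O (ℕ →₀ L)} (hM : M ≤ Fl O n) {x : ℕ →₀ L}
    (hx : shV O n x ∈ M ⊔ A.map (shV O n)) : x ∈ A := by
  obtain ⟨m, hm, b, hb, hmb⟩ := Submodule.mem_sup.mp hx
  obtain ⟨a, ha, rfl⟩ := hb
  have : x = a := by
    ext j
    have h1 := DFunLike.congr_fun hmb (j + n)
    rw [Finsupp.add_apply, hM hm (j + n) (by omega), zero_add, shV_apply_add, shV_apply_add] at h1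
    exact h1.symm
  rw [this]
  exact ha

/-- the second block: the shift of a leading vector is a leading vector -/
theorem lead_block_two {A B M : Submodule O (ℕ →₀ L)} (h : A < B) (hM : M ≤ Fl O n)
    {x : ℕ →₀ L} (hx : IsLead A B x) :
    IsLead (M ⊔ A.map (shV O n)) (M ⊔ B.map (shV O n)) (shV O n x) := by
  have hpl : pla (M ⊔ A.map (shV O n)) (M ⊔ B.map (shV O n)) = pla A B + n := by
    apply pla_unique
    · intro hle
      apply (pla_spec h).1
      rintro y ⟨hy, hy'⟩
      have h1 : shV O n y ∈ (M ⊔ B.map (shV O n)) ⊓ Fl O (pla A B + 1 + n) := by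
        rw [sum_inf_high hM]
        exact Submodule.mem_sup_right ⟨y, ⟨hy, hy'⟩, rfl⟩
      have e : pla A B + 1 + n = pla A B + n + 1 := by ring
      rw [e] at h1
      exact mem_of_shV_mem hM (hle h1)
    · rw [sum_inf_high hM]
      exact sup_le_sup_left (Submodule.map_mono (pla_spec h).2) _
  have hco : ∀ {C : Submodule O (ℕ →₀ L)},
      coo (M ⊔ C.map (shV O n)) (pla A B + n) = coo C (pla A B) := by
    intro C
    ext c
    constructor
    · rintro ⟨y, hy, hy', rfl⟩
      have e : pla A B + n + 1 = pla A B + 1 + n := by ring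
      rw [e] at hy'
      have h1 := (sum_inf_high (A := C) hM (i := pla A B + 1)).le ⟨hy, hy'⟩
      obtain ⟨m, hm, b, hb, rfl⟩ := Submodule.mem_sup.mp h1
      obtain ⟨a, ⟨ha, ha'⟩, rfl⟩ := hb
      refine ⟨a, ha, ha', ?_⟩
      rw [Finsupp.add_apply, hM hm (pla A B + n) (by omega), zero_add, shV_apply_add]
    · rintro ⟨y, hy, hy', rfl⟩
      refine ⟨shV O n y, Submodule.mem_sup_right ⟨y, hy, rfl⟩, fun j hj => ?_, ?_⟩
      · obtain ⟨k, rfl⟩ : ∃ k, j = k + n := ⟨j - n, by omega⟩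
        rw [shV_apply_add]
        exact hy' k (by omega)
      · rw [shV_apply_add]
  refine ⟨Submodule.mem_sup_right ⟨x, hx.1, rfl⟩, ?_, ?_⟩
  · rw [hpl]
    intro j hj
    obtain ⟨k, rfl⟩ : ∃ k, j = k + n := ⟨j - n, by omega⟩
    rw [shV_apply_add]
    exact hx.2.1 k (by omega)
  · rw [hpl, hco, hco, shV_apply_add]
    exact hx.2.2

end

end St16B3
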