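import Pool.Agent.LibSt16B3.Len
import Pool.Agent.LibSt16B3.Gen

/-!
# Lengths and block sums (block III of MP_8b67e9)
-/

set_option autoImplicit false

namespace St16B3

section

variable {O V : Type} [CommRing O] [AddCommGroup V] [Module O V]

/-- adding the same submodule to both members of a pair -/
theorem elen_sup {A B C : Submodule O V} (h : A ≤ B) (hC : B ⊓ (A ⊔ C) ≤ A) :
    elen (A ⊔ C) (B ⊔ C) = elen A B := by
  unfold elen
  let f : (B ⧸ A.comap B.subtype) →ₗ[O] ((B ⊔ C : Submodule O V) ⧸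
      (A ⊔ C).comap (B ⊔ C).subtype) :=
    Submodule.mapQ _ _ (Submodule.inclusion (le_sup_left : B ≤ B ⊔ C))
      (fun x hx => Submodule.mem_sup_left hx)
  have hf : Function.Bijective f := by
    constructor
    · rw [← LinearMap.ker_eq_bot, LinearMap.ker_eq_bot']
      intro x hx
      obtain ⟨x, rfl⟩ := Submodule.mkQ_surjective _ x
      rw [Submodule.mkQ_apply, Submodule.mapQ_apply, Submodule.Quotient.mk_eq_zero] at hx
      rw [Submodule.mkQ_apply, Submodule.Quotient.mk_eq_zero]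
      exact hC ⟨x.2, hx⟩
    · intro y
      obtain ⟨⟨y, hy⟩, rfl⟩ := Submodule.mkQ_surjective _ y
      obtain ⟨b, hb, c, hc, rfl⟩ := Submodule.mem_sup.mp hy
      refine ⟨Submodule.mkQ _ ⟨b, hb⟩, ?_⟩
      rw [Submodule.mkQ_apply, Submodule.mapQ_apply, Submodule.mkQ_apply, Submodule.Quotient.eq]
      change b - (b + c) ∈ A ⊔ C
      rw [sub_add_cancel_left]
      exact Submodule.neg_mem _ (Submodule.mem_sup_right hc)
  exact (LinearEquiv.ofBijective f hf).length_eq.symm

end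

variable {O L : Type} [CommRing O] [Field L] [Algebra O L] {n : ℕ}

theorem low_cond {A B C : Submodule O (ℕ →₀ L)} (hB : B ≤ Fl O n) (h : A ≤ B) :
    B ⊓ (A ⊔ C.map (shV O n)) ≤ A := by
  rintro x ⟨hx, hx'⟩
  exact ((sum_inf_low (M := C) (h.trans hB) le_rfl).le ⟨hx', hB hx⟩).1

theorem high_cond {A B M : Submodule O (ℕ →₀ L)} (hM : M ≤ Fl O n) :
    B.map (shV O n) ⊓ (A.map (shV O n) ⊔ M) ≤ A.map (shV O n) := by
  rintro _ ⟨⟨x, hx, rfl⟩, hx'⟩
  rw [sup_comm] at hx'
  exact ⟨x, mem_of_shV_mem hM hx', rfl⟩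

theorem elen_low {A B : Submodule O (ℕ →₀ L)} (M : Submodule O (ℕ →₀ L)) (hB : B ≤ Fl O n)
    (h : A ≤ B) : elen (A ⊔ M.map (shV O n)) (B ⊔ M.map (shV O n)) = elen A B :=
  elen_sup h (low_cond hB h)

theorem elen_high {A B M : Submodule O (ℕ →₀ L)} (hM : M ≤ Fl O n) (h : A ≤ B) :
    elen (M ⊔ A.map (shV O n)) (M ⊔ B.map (shV O n)) = elen A B := by
  rw [sup_comm M, sup_comm M, elen_sup (Submodule.map_mono h) (high_cond hM),
    elen_map _ (shV_injective n)]

/-- **the length of a pair of block sums** -/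
theorem elen_block {A B M N : Submodule O (ℕ →₀ L)} (hB : B ≤ Fl O n) (h : A ≤ B) (h' : M ≤ N) :
    elen (A ⊔ M.map (shV O n)) (B ⊔ N.map (shV O n)) = elen A B + elen M N := by
  rw [elen_add (B := B ⊔ M.map (shV O n)) (sup_le_sup_right h _)
    (sup_le_sup_left (Submodule.map_mono h') _), elen_low M hB h, elen_high hB h']

theorem covBy_low {A B : Submodule O (ℕ →₀ L)} (M : Submodule O (ℕ →₀ L)) (hB : B ≤ Fl O n)
    (h : A ⋖ B) : A ⊔ M.map (shV O n) ⋖ B ⊔ M.map (shV O n) := by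
  rw [← elen_one_iff (sup_le_sup_right h.le _), elen_low M hB h.le, elen_one_iff h.le]
  exact h

theorem covBy_high {A B M : Submodule O (ℕ →₀ L)} (hM : M ≤ Fl O n) (h : A ⋖ B) :
    M ⊔ A.map (shV O n) ⋖ M ⊔ B.map (shV O n) := by
  rw [← elen_one_iff (sup_le_sup_left (Submodule.map_mono h.le) _), elen_high hM h.le,
    elen_one_iff h.le]
  exact h

/-- the first member of a block sum -/
theorem block_inf {A M : Submodule O (ℕ →₀ L)} (hA : A ≤ Fl O n) :
    (A ⊔ M.map (shV O n)) ⊓ Fl O n = A := by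
  rw [sum_inf_low hA le_rfl]
  exact inf_eq_left.mpr hA

/-- the second member of a block sum -/
theorem block_comap {A M : Submodule O (ℕ →₀ L)} (hA : A ≤ Fl O n) :
    (A ⊔ M.map (shV O n)).comap (shV O n) = M := by
  apply le_antisymm
  · intro x hx
    exact mem_of_shV_mem hA hx
  · intro x hx
    exact Submodule.mem_sup_right ⟨x, hx, rfl⟩

theorem block_le {A B M N : Submodule O (ℕ →₀ L)} (hA : A ≤ Fl O n) (hB : B ≤ Fl O n) :
    A ⊔ M.map (shV O n) ≤ B ⊔ N.map (shV O n) ↔ A ≤ B ∧ M ≤ N := by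
  constructor
  · intro h
    refine ⟨?_, ?_⟩
    · have := inf_le_inf_right (Fl O n) h
      rwa [block_inf hA, block_inf hB] at this
    · have := Submodule.comap_mono (f := shV O n) h
      rwa [block_comap hA, block_comap hB] at this
  · rintro ⟨h1, h2⟩
    exact sup_le_sup h1 (Submodule.map_mono h2)

theorem block_inj {A B M N : Submodule O (ℕ →₀ L)} (hA : A ≤ Fl O n) (hB : B ≤ Fl O n) :
    A ⊔ M.map (shV O n) = B ⊔ N.map (shV O n) ↔ A = B ∧ M = N := by
  rw [le_antisymm_iff, block_le hA hB, block_le hB hA, le_antisymm_iff, le_antisymm_iff]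
  tauto

end St16B3
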