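import Mathlib

/-!
# Chains of almost self-dual lattices (block III of MP_8b67e9)
-/

set_option autoImplicit false

namespace St16B3

open Submodule LinearMap.BilinForm

variable {O L V : Type} [CommRing O] [IsDomain O] [IsDiscreteValuationRing O] [Field L]
  [Algebra O L] [IsFractionRing O L] [AddCommGroup V] [Module L V] [Module O V]
  [IsScalarTower O L V] [FiniteDimensional L V]

section

variable (B : LinearMap.BilinForm L V)

/-- a lattice is spanned by a basis -/
theorem exists_basis (M : Submodule O V) [IsLattice L M] :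
    ∃ b : Module.Basis (Fin (Module.finrank L V)) L V, Submodule.span O (Set.range b) = M := by
  have : Module.IsTorsionFree O L := inferInstance
  have hf : Module.Free O M := IsLattice.free L M
  let b₀ := Module.Free.chooseBasis O M
  have : Fintype (Module.Free.ChooseBasisIndex O M) := inferInstance
  let b₁ := b₀.extendOfIsLattice L
  let e : Module.Free.ChooseBasisIndex O M ≃ Fin (Module.finrank L V) :=
    b₁.indexEquiv (Module.finBasis L V)
  refine ⟨b₁.reindex e, ?_⟩
  have h1 : Set.range (b₁.reindex e) = (M.subtype : M → V) '' Set.range b₀ := by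
    ext x
    simp only [Set.mem_range, Set.mem_image, Module.Basis.reindex_apply]
    constructor
    · rintro ⟨i, rfl⟩
      exact ⟨b₀ (e.symm i), ⟨_, rfl⟩, by simp [b₁]⟩
    · rintro ⟨_, ⟨i, rfl⟩, rfl⟩
      exact ⟨e i, by simp [b₁]⟩
  rw [h1, ← Submodule.map_span, b₀.span_eq, Submodule.map_top, Submodule.range_subtype]

variable {B}

theorem bidual (hB : B.Nondegenerate) (hs : B.IsSymm) (M : Submodule O V) [IsLattice L M] :
    B.dualSubmodule (B.dualSubmodule M) = M := by
  obtain ⟨b, hb⟩ := exists_basis (L := L) M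
  rw [← hb]
  exact dualSubmodule_dualSubmodule_of_basis _ hB hs b

theorem dual_isLattice (hB : B.Nondegenerate) (M : Submodule O V) [IsLattice L M] :
    IsLattice L (B.dualSubmodule M) := by
  obtain ⟨b, hb⟩ := exists_basis (L := L) M
  rw [← hb, dualSubmodule_span_of_basis B hB]
  constructor
  · exact Submodule.fg_span (Set.finite_range _)
  · rw [Submodule.span_span_of_tower, Module.Basis.span_eq]

theorem dual_lt (hB : B.Nondegenerate) (hs : B.IsSymm) {M N : Submodule O V} [IsLattice L M]
    [IsLattice L N] (h : M < N) : B.dualSubmodule N < B.dualSubmodule M := by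
  refine lt_of_le_of_ne (fun x hx y hy => hx y (h.le hy)) fun he => h.ne ?_
  rw [← bidual hB hs M, ← bidual hB hs N, he]

end

/-- the length of `N / ϖ N` -/
theorem length_quot (N : Submodule O V) [IsLattice L N] {ϖ : O} (hϖ : Irreducible ϖ) :
    Module.length O (N ⧸ LinearMap.range (LinearMap.lsmul O N ϖ)) = Module.finrank L V := by
  have hf : Module.Free O N := IsLattice.free L N
  let b₀ := Module.Free.chooseBasis O N
  let e : Module.Free.ChooseBasisIndex O N ≃ Fin (Module.finrank L V) :=
    (b₀.extendOfIsLattice L).indexEquiv (Module.finBasis L V)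
  let b := b₀.reindex e
  -- `N / ϖ N ≃ (O / ϖ)^n`
  have hmax : (Ideal.span {ϖ}).IsMaximal :=
    PrincipalIdealRing.isMaximal_of_irreducible hϖ
  let f : N →ₗ[O] (Fin (Module.finrank L V) → O ⧸ Ideal.span {ϖ}) :=
    LinearMap.pi fun i => (Submodule.mkQ (Ideal.span {ϖ})).comp (b.coord i)
  have hfs : Function.Surjective f := by
    intro y
    choose x hx using fun i => Submodule.mkQ_surjective (Ideal.span {ϖ}) (y i)
    refine ⟨∑ i, x i • b i, ?_⟩
    funext i
    change (Submodule.mkQ (Ideal.span {ϖ})) (b.coord i (∑ i, x i • b i)) = y i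
    rw [← hx i]
    congr 1
    rw [Module.Basis.coord_apply, b.repr_sum_self]
  have hker : LinearMap.ker f = LinearMap.range (LinearMap.lsmul O N ϖ) := by
    ext x
    rw [LinearMap.mem_ker]
    constructor
    · intro hx
      have h1 : ∀ i, ∃ c : O, b.coord i x = ϖ * c := by
        intro i
        have h2 := congrFun hx i
        change (Submodule.mkQ (Ideal.span {ϖ})) (b.coord i x) = 0 at h2
        rw [Submodule.mkQ_apply, Submodule.Quotient.mk_eq_zero, Ideal.mem_span_singleton] at h2
        exact h2
      choose c hc using h1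
      have : x = ϖ • ∑ i, c i • b i := by
        conv_lhs => rw [← b.sum_repr x]
        rw [Finset.smul_sum]
        refine Finset.sum_congr rfl fun i _ => ?_
        rw [smul_smul, ← hc i]
        rfl
      exact ⟨_, this.symm⟩
    · rintro ⟨y, rfl⟩
      funext i
      change (Submodule.mkQ (Ideal.span {ϖ})) (b.coord i (ϖ • y)) = 0
      rw [map_smul, Submodule.mkQ_apply, Submodule.Quotient.mk_eq_zero, smul_eq_mul]
      exact Ideal.mul_mem_right _ _ (Ideal.mem_span_singleton_self ϖ)
  have e1 : (N ⧸ LinearMap.range (LinearMap.lsmul O N ϖ)) ≃ₗ[O]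
      (Fin (Module.finrank L V) → O ⧸ Ideal.span {ϖ}) :=
    (Submodule.quotEquivOfEq _ _ hker.symm).trans (f.quotKerEquivOfSurjective hfs)
  rw [e1.length_eq, Module.length_pi]
  have hs : IsSimpleModule O (O ⧸ Ideal.span {ϖ}) := by
    rw [isSimpleModule_iff_isCoatom]
    exact hmax.out
  rw [Module.length_eq_one]
  simp

/-- a strict chain between `ϖ N` and `N` has length at most `dim V` -/
theorem chain_le (N : Submodule O V) [IsLattice L N] {ϖ : O} (hϖ : Irreducible ϖ) (s : ℕ)
    (c : ℕ → Submodule O V) (hlt : ∀ i < s, c i < c (i + 1)) (h0 : ∀ x ∈ N, ϖ • x ∈ c 0)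
    (hN : c s ≤ N) : s ≤ Module.finrank L V := by
  have hmono : ∀ i j, i ≤ j → j ≤ s → c i ≤ c j := by
    intro i j hij
    induction hij with
    | refl => intro _; exact le_rfl
    | step h ih => intro hj; exact (ih (by omega)).trans (hlt _ (by omega)).le
  let K : Submodule O N := LinearMap.range (LinearMap.lsmul O N ϖ)
  let F : ℕ → Submodule O (N ⧸ K) := fun i => ((c i).comap N.subtype).map K.mkQ
  have hF : ∀ i < s, F i < F (i + 1) := by
    intro i hi
    have hle : F i ≤ F (i + 1) :=
      Submodule.map_mono (Submodule.comap_mono (hlt i hi).le)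
    refine lt_of_le_of_ne hle fun he => ?_
    obtain ⟨x, hx, hnx⟩ := SetLike.exists_of_lt (hlt i hi)
    have hxN : x ∈ N := hN (hmono (i + 1) s (by omega) le_rfl hx)
    have h1 : K.mkQ (⟨x, hxN⟩ : N) ∈ F i := by
      rw [he]
      exact ⟨⟨x, hxN⟩, hx, rfl⟩
    obtain ⟨y, hy, hyx⟩ := h1
    have h2 : (⟨x, hxN⟩ : N) - y ∈ K := by
      rw [← Submodule.Quotient.eq]
      exact hyx.symm
    obtain ⟨z, hz⟩ := h2
    have h3 : x - y.1 = ϖ • z.1 := by
      have := congrArg Subtype.val hz
      exact this.symm
    have h4 : ϖ • z.1 ∈ c i := hmono 0 i (Nat.zero_le _) hi.le (h0 _ z.2)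
    apply hnx
    have : x = ϖ • z.1 + y.1 := by rw [← h3]; abel
    rw [this]
    exact (c i).add_mem h4 hy
  have hlen : (s : ℕ∞) ≤ Module.length O (N ⧸ K) := by
    let S : LTSeries (Submodule O (N ⧸ K)) :=
      { length := s
        toFun := fun i => F i
        step := fun i => by
          have := hF i i.2
          simpa using this }
    have h1 := Order.LTSeries.length_le_krullDim S
    rw [← Module.coe_length] at h1
    exact_mod_cast h1
  rw [length_quot N hϖ] at hlen
  exact_mod_cast hlen

/-- **Chains of almost self-dual lattices are short.** -/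
theorem chain_bound {B : LinearMap.BilinForm L V} (hB : B.Nondegenerate) (hs : B.IsSymm) {ϖ : O}
    (hϖ : Irreducible ϖ) (r : ℕ) (Λ : ℕ → Submodule O V) (hL : ∀ i ≤ r, IsLattice L (Λ i))
    (h1 : ∀ x ∈ B.dualSubmodule (Λ 0), ϖ • x ∈ Λ 0) (h2 : Λ r ≤ B.dualSubmodule (Λ r))
    (hlt : ∀ i < r, Λ i < Λ (i + 1)) : 2 * r ≤ Module.finrank L V := by
  have := hL 0 (Nat.zero_le _)
  have hN := dual_isLattice (B := B) hB (Λ 0)
  rcases Nat.eq_zero_or_pos r with rfl | hr
  · exact Nat.zero_le _
  refine chain_le (B.dualSubmodule (Λ 0)) hϖ (2 * r)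
    (fun i => if i ≤ r then Λ i else B.dualSubmodule (Λ (2 * r - i))) ?_ ?_ ?_
  · intro i hi
    have hdual : ∀ j < r, B.dualSubmodule (Λ (j + 1)) < B.dualSubmodule (Λ j) := by
      intro j hj
      have := hL j hj.le
      have := hL (j + 1) hj
      exact dual_lt hB hs (hlt j hj)
    by_cases h3 : i < r
    · simp only [if_pos h3.le, if_pos (Nat.succ_le_of_lt h3)]
      exact hlt i h3
    · by_cases h4 : i = r
      · subst h4
        simp only [le_refl, if_true, if_neg (Nat.not_succ_le_self i)]
        have e : 2 * i - (i + 1) = i - 1 := by omega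
        rw [e]
        have h5 := hdual (i - 1) (by omega)
        rw [Nat.sub_add_cancel hr] at h5
        exact lt_of_le_of_lt h2 h5
      · have h5 : ¬ i ≤ r := by omega
        have h6 : ¬ i + 1 ≤ r := by omega
        simp only [if_neg h5, if_neg h6]
        have h7 := hdual (2 * r - (i + 1)) (by omega)
        have e : 2 * r - (i + 1) + 1 = 2 * r - i := by omega
        rwa [e] at h7
  · simp only [Nat.zero_le, if_true]
    exact h1
  · have h3 : ¬ 2 * r ≤ r := by omega
    simp only [if_neg h3, Nat.sub_self]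
    exact le_rfl

end St16B3
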