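import Pool.Agent.LibSt16B3.Blk

/-!
# The cocycle with values in the units of the residue field (block III of MP_8b67e9)
-/

set_option autoImplicit false

namespace St16B3

open IsLocalRing

variable {O L : Type} [CommRing O] [Field L] [Algebra O L]

/-- linear automorphisms of `ℕ →₀ L` -/
abbrev GV (L : Type) [Field L] : Type := (ℕ →₀ L) ≃ₗ[L] (ℕ →₀ L)

/-- the action on submodules -/
noncomputable def act (g : GV L) (A : Submodule O (ℕ →₀ L)) : Submodule O (ℕ →₀ L) :=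
  A.map ((g.toLinearMap : (ℕ →₀ L) →ₗ[L] (ℕ →₀ L)).restrictScalars O)

theorem mem_act {g : GV L} {A : Submodule O (ℕ →₀ L)} {x : ℕ →₀ L} :
    x ∈ act g A ↔ ∃ y ∈ A, g y = x := Iff.rfl

theorem apply_mem_act {g : GV L} {A : Submodule O (ℕ →₀ L)} {x : ℕ →₀ L} :
    g x ∈ act g A ↔ x ∈ A := by
  constructor
  · rintro ⟨y, hy, hyx⟩
    rw [← g.injective hyx]
    exact hy
  · intro hx
    exact ⟨x, hx, rfl⟩

theorem act_one (A : Submodule O (ℕ →₀ L)) : act (1 : GV L) A = A := by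
  ext x
  constructor
  · rintro ⟨y, hy, rfl⟩
    exact hy
  · intro hx
    exact ⟨x, hx, rfl⟩

theorem act_mul (g h : GV L) (A : Submodule O (ℕ →₀ L)) : act (g * h) A = act g (act h A) := by
  ext x
  constructor
  · rintro ⟨y, hy, rfl⟩
    exact ⟨h y, ⟨y, hy, rfl⟩, rfl⟩
  · rintro ⟨_, ⟨y, hy, rfl⟩, rfl⟩
    exact ⟨y, hy, rfl⟩

theorem act_inv_act (g : GV L) (A : Submodule O (ℕ →₀ L)) : act g⁻¹ (act g A) = A := by
  rw [← act_mul, inv_mul_cancel, act_one]

theorem act_act_inv (g : GV L) (A : Submodule O (ℕ →₀ L)) : act g (act g⁻¹ A) = A := by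
  rw [← act_mul, mul_inv_cancel, act_one]

theorem act_injective (g : GV L) :
    Function.Injective (act g : Submodule O (ℕ →₀ L) → Submodule O (ℕ →₀ L)) := by
  intro A B h
  rw [← act_inv_act g A, h, act_inv_act]

theorem act_mono (g : GV L) {A B : Submodule O (ℕ →₀ L)} (h : A ≤ B) : act g A ≤ act g B :=
  Submodule.map_mono h

theorem act_le_act (g : GV L) {A B : Submodule O (ℕ →₀ L)} : act g A ≤ act g B ↔ A ≤ B := by
  constructor
  · intro h
    have := act_mono g⁻¹ h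
    rwa [act_inv_act, act_inv_act] at this
  · exact act_mono g

theorem act_sup (g : GV L) (A B : Submodule O (ℕ →₀ L)) : act g (A ⊔ B) = act g A ⊔ act g B :=
  Submodule.map_sup _ _ _

theorem act_elen (g : GV L) (A B : Submodule O (ℕ →₀ L)) : elen (act g A) (act g B) = elen A B :=
  elen_map ((g.toLinearMap : (ℕ →₀ L) →ₗ[L] (ℕ →₀ L)).restrictScalars O) g.injective A B

theorem act_covBy (g : GV L) {A B : Submodule O (ℕ →₀ L)} (h : A ⋖ B) : act g A ⋖ act g B := by
  rw [← elen_one_iff (act_mono g h.le), act_elen, elen_one_iff h.le]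
  exact h

variable [IsLocalRing O]

/-- **the cocycle**: the ratio of the leading coefficients at `g` and at `g'` -/
noncomputable def uu (g g' : GV L) (A B : Submodule O (ℕ →₀ L)) : (ResidueField O)ˣ :=
  ratio A (g (gen (act g⁻¹ A) (act g⁻¹ B))) (g' (gen (act g'⁻¹ A) (act g'⁻¹ B)))

section

variable {A B : Submodule O (ℕ →₀ L)}

theorem point_lead (h : A < B) (g : GV L) :
    IsLead (act g⁻¹ A) (act g⁻¹ B) (gen (act g⁻¹ A) (act g⁻¹ B)) := by
  apply gen_lead
  refine lt_of_le_of_ne (act_mono _ h.le) fun he => h.ne (act_injective _ he)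

theorem point_mem (h : A < B) (g : GV L) : g (gen (act g⁻¹ A) (act g⁻¹ B)) ∈ B := by
  have := (point_lead h g).1
  rw [← apply_mem_act (g := g), act_act_inv] at this
  exact this

theorem point_not_mem (h : A < B) (g : GV L) : g (gen (act g⁻¹ A) (act g⁻¹ B)) ∉ A := by
  have hlt : act g⁻¹ A < act g⁻¹ B :=
    lt_of_le_of_ne (act_mono _ h.le) fun he => h.ne (act_injective _ he)
  have := (point_lead h g).not_mem hlt
  intro hn
  apply this
  rw [← apply_mem_act (g := g), act_act_inv]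
  exact hn

/-- any leading vector may be used -/
theorem uu_eq (h : A ⋖ B) (g g' : GV L) {x x' : ℕ →₀ L} (hx : IsLead (act g⁻¹ A) (act g⁻¹ B) x)
    (hx' : IsLead (act g'⁻¹ A) (act g'⁻¹ B) x') : uu g g' A B = ratio A (g x) (g' x') := by
  have key : ∀ (k : GV L) {y : ℕ →₀ L}, IsLead (act k⁻¹ A) (act k⁻¹ B) y →
      k y - k (gen (act k⁻¹ A) (act k⁻¹ B)) ∈ A := by
    intro k y hy
    have hlt : act k⁻¹ A < act k⁻¹ B :=
      lt_of_le_of_ne (act_mono _ h.le) fun he => h.ne (act_injective _ he)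
    have h1 := hy.sub_mem hlt (point_lead h.lt k)
    rw [← apply_mem_act (g := k), act_act_inv, map_sub] at h1
    exact h1
  exact (ratio_congr h (point_mem h.lt g) (point_not_mem h.lt g) (point_mem h.lt g')
    (point_not_mem h.lt g') (key g hx) (key g' hx')).symm

/-- **cocycle condition** -/
theorem uu_mul (h : A ⋖ B) (g g' g'' : GV L) : uu g g' A B * uu g' g'' A B = uu g g'' A B :=
  ratio_mul h (point_mem h.lt g) (point_not_mem h.lt g) (point_mem h.lt g')
    (point_not_mem h.lt g') (point_mem h.lt g'') (point_not_mem h.lt g'')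

theorem uu_self (h : A ⋖ B) (g : GV L) : uu g g A B = 1 :=
  ratio_self h (point_mem h.lt g) (point_not_mem h.lt g)

/-- **invariance** -/
theorem uu_act (h : A ⋖ B) (k g g' : GV L) :
    uu (k * g) (k * g') (act k A) (act k B) = uu g g' A B := by
  have e : ∀ (g : GV L) (C : Submodule O (ℕ →₀ L)), act (k * g)⁻¹ (act k C) = act g⁻¹ C := by
    intro g C
    rw [mul_inv_rev, act_mul, act_inv_act]
  have h1 := point_lead h.lt g
  have h2 := point_lead h.lt g'
  rw [uu_eq (act_covBy k h) (k * g) (k * g') (x := gen (act g⁻¹ A) (act g⁻¹ B))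
    (x' := gen (act g'⁻¹ A) (act g'⁻¹ B)) (by rw [e, e]; exact h1) (by rw [e, e]; exact h2)]
  exact ratio_map h (act_covBy k h) ((k.toLinearMap : (ℕ →₀ L) →ₗ[L] (ℕ →₀ L)).restrictScalars O)
    (fun v hv => apply_mem_act.mpr hv) (fun v hv => apply_mem_act.mpr hv)
    (fun v _ hv => apply_mem_act.mp hv) (point_mem h.lt g) (point_not_mem h.lt g)
    (point_mem h.lt g') (point_not_mem h.lt g')

/-- **evaluation**: when `g⁻¹ g'` preserves `g⁻¹ A`, `g⁻¹ B` and multiplies the quotient by `c` -/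
theorem uu_eval (h : A ⋖ B) (g w : GV L) (hA : act w (act g⁻¹ A) = act g⁻¹ A)
    (hB : act w (act g⁻¹ B) = act g⁻¹ B) (c : Oˣ)
    (hc : ∀ x ∈ act g⁻¹ B, w x - (c : O) • x ∈ act g⁻¹ A) :
    uu g (g * w) A B = Units.map (residue O : O →* ResidueField O) c := by
  have e : ∀ C : Submodule O (ℕ →₀ L), act w (act g⁻¹ C) = act g⁻¹ C →
      act (g * w)⁻¹ C = act g⁻¹ C := by
    intro C hC
    rw [mul_inv_rev, act_mul]
    conv_lhs => rw [← hC]
    rw [act_inv_act]
  have h1 := point_lead h.lt g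
  rw [uu_eq h g (g * w) h1 (x' := gen (act g⁻¹ A) (act g⁻¹ B))
    (by rw [e A hA, e B hB]; exact h1)]
  refine ratio_eq h (point_mem h.lt g) (point_not_mem h.lt g) ?_
  have h2 := hc _ h1.1
  rw [← apply_mem_act (g := g), act_act_inv, map_sub] at h2
  have h3 : g ((c : O) • gen (act g⁻¹ A) (act g⁻¹ B)) =
      (c : O) • g (gen (act g⁻¹ A) (act g⁻¹ B)) :=
    ((g.toLinearMap : (ℕ →₀ L) →ₗ[L] (ℕ →₀ L)).restrictScalars O).map_smul _ _
  rw [h3] at h2
  exact h2

end

/-! ### block sums -/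

section

variable {n : ℕ}

/-- `g` preserves the vectors with coordinates at places `< n` -/
def Pres (n : ℕ) (g : GV L) : Prop := ∀ x : ℕ →₀ L, x ∈ Fl ℤ n ↔ g x ∈ Fl ℤ n

/-- `G` is the block sum of `g` (first `n` places) and of `k` -/
structure IsBlock (n : ℕ) (g k G : GV L) : Prop where
  low : ∀ x : ℕ →₀ L, x ∈ Fl ℤ n → G x = g x
  high : ∀ x : ℕ →₀ L, G (shV ℤ n x) = shV ℤ n (k x)
  pres : ∀ x : ℕ →₀ L, x ∈ Fl ℤ n → g x ∈ Fl ℤ n
  pres' : ∀ x : ℕ →₀ L, x ∈ Fl ℤ n → g⁻¹ x ∈ Fl ℤ n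

theorem mem_Fl_iff {n : ℕ} {x : ℕ →₀ L} : x ∈ Fl O n ↔ x ∈ Fl ℤ n := Iff.rfl

theorem IsBlock.inv {g k G : GV L} (h : IsBlock n g k G) : IsBlock n g⁻¹ k⁻¹ G⁻¹ where
  low := by
    intro x hx
    apply G.injective
    have h1 : G (G⁻¹ x) = x := G.apply_symm_apply x
    rw [h1, h.low _ (h.pres' x hx)]
    exact (g.apply_symm_apply x).symm
  high := by
    intro x
    apply G.injective
    have h1 : G (G⁻¹ (shV ℤ n x)) = shV ℤ n x := G.apply_symm_apply _
    rw [h1, h.high]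
    exact congrArg _ (k.apply_symm_apply x).symm
  pres := h.pres'
  pres' := by rw [inv_inv]; exact h.pres

theorem IsBlock.act_eq {g k G : GV L} (h : IsBlock n g k G) {A M : Submodule O (ℕ →₀ L)}
    (hA : A ≤ Fl O n) : act G (A ⊔ M.map (shV O n)) = act g A ⊔ (act k M).map (shV O n) := by
  rw [act_sup]
  congr 1
  · ext x
    constructor
    · rintro ⟨y, hy, rfl⟩
      exact ⟨y, hy, (h.low y (hA hy)).symm⟩
    · rintro ⟨y, hy, rfl⟩
      exact ⟨y, hy, h.low y (hA hy)⟩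
  · ext x
    constructor
    · rintro ⟨_, ⟨y, hy, rfl⟩, rfl⟩
      exact ⟨k y, ⟨y, hy, rfl⟩, (h.high y).symm⟩
    · rintro ⟨_, ⟨y, hy, rfl⟩, rfl⟩
      exact ⟨shV O n y, ⟨y, hy, rfl⟩, h.high y⟩

theorem IsBlock.act_le {g k G : GV L} (h : IsBlock n g k G) {A : Submodule O (ℕ →₀ L)}
    (hA : A ≤ Fl O n) : act g A ≤ Fl O n := by
  rintro _ ⟨x, hx, rfl⟩
  exact h.pres x (hA hx)

/-- **a step in the first block** -/
theorem uu_low {A B M : Submodule O (ℕ →₀ L)} (h : A ⋖ B) (hB : B ≤ Fl O n) {g k G g' k' G' : GV L}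
    (hG : IsBlock n g k G) (hG' : IsBlock n g' k' G') :
    uu G G' (A ⊔ M.map (shV O n)) (B ⊔ M.map (shV O n)) = uu g g' A B := by
  have hA : A ≤ Fl O n := h.le.trans hB
  have key : ∀ {g k G : GV L}, IsBlock n g k G →
      IsLead (act G⁻¹ (A ⊔ M.map (shV O n))) (act G⁻¹ (B ⊔ M.map (shV O n)))
        (gen (act g⁻¹ A) (act g⁻¹ B)) ∧ gen (act g⁻¹ A) (act g⁻¹ B) ∈ Fl ℤ n := by
    intro g k G hG
    have hlt : act g⁻¹ A < act g⁻¹ B :=
      lt_of_le_of_ne (act_mono _ h.le) fun he => h.ne (act_injective _ he)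
    rw [hG.inv.act_eq hA, hG.inv.act_eq hB]
    exact ⟨lead_block_one hlt (hG.inv.act_le hB) (point_lead h.lt g),
      hG.inv.act_le hB (point_lead h.lt g).1⟩
  rw [uu_eq (covBy_low M hB h) G G' (key hG).1 (key hG').1, hG.low _ (key hG).2,
    hG'.low _ (key hG').2]
  exact ratio_map h (covBy_low M hB h) LinearMap.id (fun v hv => Submodule.mem_sup_left hv)
    (fun v hv => Submodule.mem_sup_left hv) (fun v hv hv' => low_cond hB h.le ⟨hv, hv'⟩)
    (point_mem h.lt g) (point_not_mem h.lt g) (point_mem h.lt g') (point_not_mem h.lt g')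

/-- **a step in the second block** -/
theorem uu_high {A B M : Submodule O (ℕ →₀ L)} (h : A ⋖ B) (hM : M ≤ Fl O n)
    {g k G g' k' G' : GV L} (hG : IsBlock n g k G) (hG' : IsBlock n g' k' G') :
    uu G G' (M ⊔ A.map (shV O n)) (M ⊔ B.map (shV O n)) = uu k k' A B := by
  have key : ∀ {g k G : GV L}, IsBlock n g k G →
      IsLead (act G⁻¹ (M ⊔ A.map (shV O n))) (act G⁻¹ (M ⊔ B.map (shV O n)))
        (shV O n (gen (act k⁻¹ A) (act k⁻¹ B))) := by
    intro g k G hG
    have hlt : act k⁻¹ A < act k⁻¹ B :=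
      lt_of_le_of_ne (act_mono _ h.le) fun he => h.ne (act_injective _ he)
    rw [hG.inv.act_eq hM, hG.inv.act_eq hM]
    exact lead_block_two hlt (hG.inv.act_le hM) (point_lead h.lt k)
  have e : ∀ {g k G : GV L}, IsBlock n g k G → ∀ x : ℕ →₀ L, G (shV O n x) = shV O n (k x) :=
    fun hG x => hG.high x
  rw [uu_eq (covBy_high hM h) G G' (key hG) (key hG'), e hG, e hG']
  exact ratio_map h (covBy_high hM h) (shV O n)
    (fun v hv => Submodule.mem_sup_right ⟨v, hv, rfl⟩)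
    (fun v hv => Submodule.mem_sup_right ⟨v, hv, rfl⟩)
    (fun v _ hv => mem_of_shV_mem hM hv)
    (point_mem h.lt k) (point_not_mem h.lt k) (point_mem h.lt k') (point_not_mem h.lt k')

end

end St16B3
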