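import Pool.Agent.LibSt16.SY09
import Pool.Agent.LibSt16B3.U

/-!
# Colengths of lattices of `Ln` (block III of MP_8b67e9)
-/

set_option autoImplicit false

namespace St16B3

open St16 (Vc Au Lt On Ln jnL shA dot Mn dual)

variable {A L : Type} [CommRing A] [IsDomain A] [IsDiscreteValuationRing A] [Field L] [Algebra A L]
  [IsFractionRing A L]

/-- the embedding of `L^n` -/
noncomputable def emb (L : Type) [Field L] (n : ℕ) : (Fin n → L) →ₗ[L] (ℕ →₀ L) where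
  toFun := fun x => Finsupp.onFinset (Finset.range n) (fun j => if h : j < n then x ⟨j, h⟩ else 0)
    (fun j hj => by
      by_contra hn
      exact hj (dif_neg fun h => hn (Finset.mem_range.mpr h)))
  map_add' := by
    intro x y
    ext j
    by_cases h : j < n
    · simp [Finsupp.onFinset_apply, h]
    · simp [Finsupp.onFinset_apply, h]
  map_smul' := by
    intro c x
    ext j
    by_cases h : j < n
    · simp [Finsupp.onFinset_apply, h]
    · simp [Finsupp.onFinset_apply, h]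

theorem emb_lt (n : ℕ) (x : Fin n → L) (j : ℕ) (h : j < n) : emb L n x j = x ⟨j, h⟩ := dif_pos h

theorem emb_ge (n : ℕ) (x : Fin n → L) (j : ℕ) (h : n ≤ j) : emb L n x j = 0 :=
  dif_neg (by omega)

theorem emb_injective (n : ℕ) : Function.Injective (emb L n) := by
  intro x y h
  funext i
  have := DFunLike.congr_fun h i.1
  rw [emb_lt n x i.1 i.2, emb_lt n y i.1 i.2] at this
  exact this

theorem exists_emb {n : ℕ} {x : ℕ →₀ L} (hx : ∀ i, n ≤ i → x i = 0) : ∃ y, emb L n y = x := by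
  refine ⟨fun i => x i.1, ?_⟩
  ext j
  by_cases h : j < n
  · rw [emb_lt n _ j h]
  · rw [emb_ge n _ j (by omega), hx j (by omega)]

theorem dot_emb (n : ℕ) (x y : Fin n → L) : dot (emb L n x) (emb L n y) = ∑ i, x i * y i := by
  unfold dot
  rw [Finsupp.sum_of_support_subset (s := Finset.range n)]
  · rw [Finset.sum_range]
    refine Finset.sum_congr rfl fun i _ => ?_
    rw [emb_lt n x i.1 i.2, emb_lt n y i.1 i.2]
  · intro j hj
    rw [Finsupp.mem_support_iff] at hj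
    rw [Finset.mem_range]
    by_contra hn
    exact hj (emb_ge n x j (by omega))
  · intro i _
    rw [zero_mul]

/-- the lattice in coordinates -/
noncomputable def cm (n : ℕ) (Λ : Submodule A (ℕ →₀ L)) : Submodule A (Fin n → L) :=
  Λ.comap ((emb L n).restrictScalars A)

theorem map_cm {n : ℕ} {Λ : Submodule A (ℕ →₀ L)} (h : Λ ≤ Fl A n) :
    (cm n Λ).map ((emb L n).restrictScalars A) = Λ := by
  apply Submodule.map_comap_eq_self
  intro x hx
  obtain ⟨y, hy⟩ := exists_emb (h hx)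
  exact ⟨y, hy⟩

theorem elen_cm {n : ℕ} {Λ Λ' : Submodule A (ℕ →₀ L)} (h : Λ ≤ Fl A n) (h' : Λ' ≤ Fl A n) :
    elen (cm n Λ) (cm n Λ') = elen Λ Λ' := by
  conv_rhs => rw [← map_cm h, ← map_cm h']
  exact (elen_map ((emb L n).restrictScalars A) (emb_injective n) _ _).symm

/-- the standard form -/
noncomputable def stB (L : Type) [Field L] (n : ℕ) : LinearMap.BilinForm L (Fin n → L) :=
  Matrix.toBilin' (1 : Matrix (Fin n) (Fin n) L)

theorem stB_apply (n : ℕ) (x y : Fin n → L) : stB L n x y = ∑ i, x i * y i := by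
  unfold stB
  rw [Matrix.toBilin'_apply', Matrix.one_mulVec]
  rfl

theorem stB_nondeg (n : ℕ) : (stB L n).Nondegenerate :=
  LinearMap.BilinForm.nondegenerate_toBilin'_of_det_ne_zero' _ (by rw [Matrix.det_one]; exact one_ne_zero)

theorem stB_symm (n : ℕ) : (stB L n).IsSymm := by
  constructor
  intro x y
  rw [stB_apply, stB_apply]
  exact Finset.sum_congr rfl fun i _ => mul_comm _ _

theorem mem_cm_dual {n : ℕ} {Λ : Submodule A (ℕ →₀ L)} (h : Λ ≤ Fl A n) (x : Fin n → L) :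
    x ∈ (stB L n).dualSubmodule (cm n Λ) ↔ emb L n x ∈ dual n Λ := by
  constructor
  · intro hx
    refine ⟨fun i hi => emb_ge n x i hi, fun y hy => ?_⟩
    obtain ⟨z, rfl⟩ := exists_emb (h hy)
    have h1 := hx z hy
    rw [stB_apply, ← dot_emb] at h1
    obtain ⟨a, ha⟩ := Submodule.mem_one.mp h1
    exact ⟨a, ha⟩
  · rintro ⟨-, hx⟩ y hy
    obtain ⟨a, ha⟩ := hx _ hy
    rw [stB_apply, ← dot_emb]
    exact Submodule.mem_one.mpr ⟨a, ha⟩

variable {ϖ : A}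

theorem Ln_le (hϖ : Irreducible ϖ) {n : ℕ} {Λ : Lt A L} (h : Λ ∈ Ln ϖ n) :
    (Λ : Submodule A (ℕ →₀ L)) ≤ Fl A n := fun x hx => St16.Ln_low ϖ hϖ n Λ h x hx

theorem Ln_isLattice (hϖ : Irreducible ϖ) {n : ℕ} {Λ : Lt A L} (h : Λ ∈ Ln ϖ n) :
    Submodule.IsLattice L (cm n (Λ : Submodule A (ℕ →₀ L))) := by
  obtain ⟨⟨j, h1, h2⟩, -, -⟩ := h
  have hϖ0 : algebraMap A L ϖ ≠ 0 := by
    rw [Ne, map_eq_zero_iff _ (IsFractionRing.injective A L)]
    exact hϖ.ne_zero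
  have hpow : algebraMap A L (ϖ ^ j) ≠ 0 := by
    rw [map_pow]
    exact pow_ne_zero _ hϖ0
  constructor
  · -- finitely generated
    let N₀ : Submodule A (Fin n → L) := Submodule.span A (Set.range (Pi.basisFun L (Fin n)))
    have hN₀ : N₀.FG := Submodule.fg_span (Set.finite_range _)
    let f : (Fin n → L) →ₗ[A] (Fin n → L) := LinearMap.lsmul A (Fin n → L) (ϖ ^ j)
    have hf : Function.Injective f := by
      intro x y hxy
      change ϖ ^ j • x = ϖ ^ j • y at hxy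
      rw [← algebraMap_smul L, ← algebraMap_smul L (ϖ ^ j) y] at hxy
      exact smul_right_injective _ hpow hxy
    have hle : (cm n (Λ : Submodule A (ℕ →₀ L))).map f ≤ N₀ := by
      rintro _ ⟨x, hx, rfl⟩
      have h3 := h2 _ hx
      have h4 : ∀ i : Fin n, ∃ a : A, algebraMap A L a = (f x) i := by
        intro i
        obtain ⟨-, a, ha⟩ := h3 i.1
        refine ⟨a, ?_⟩
        rw [ha, Finsupp.smul_apply]
        change ϖ ^ j • (emb L n x) i.1 = (ϖ ^ j • x) i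
        rw [emb_lt n x i.1 i.2, Pi.smul_apply]
      choose a ha using h4
      have h5 : f x = ∑ i, a i • (Pi.basisFun L (Fin n)) i := by
        funext k
        rw [Finset.sum_apply, ← ha k]
        rw [Finset.sum_eq_single k]
        · rw [Pi.smul_apply, Pi.basisFun_apply, Pi.single_eq_same, Algebra.smul_def, mul_one]
        · intro b _ hb
          rw [Pi.smul_apply, Pi.basisFun_apply, Pi.single_eq_of_ne hb.symm, smul_zero]
        · intro hk
          exact absurd (Finset.mem_univ _) hk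
      rw [h5]
      exact N₀.sum_mem fun i _ => N₀.smul_mem _ (Submodule.subset_span ⟨i, rfl⟩)
    have hfg : ((cm n (Λ : Submodule A (ℕ →₀ L))).map f).FG := Submodule.FG.of_le hN₀ hle
    exact Submodule.fg_of_fg_map_injective f hf hfg
  · rw [eq_top_iff, ← (Pi.basisFun L (Fin n)).span_eq, Submodule.span_le]
    rintro _ ⟨i, rfl⟩
    have h3 : ϖ ^ j • (Pi.basisFun L (Fin n)) i ∈ cm n (Λ : Submodule A (ℕ →₀ L)) := by
      change emb L n (ϖ ^ j • (Pi.basisFun L (Fin n)) i) ∈ (Λ : Submodule A (ℕ →₀ L))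
      have h4 : emb L n (ϖ ^ j • (Pi.basisFun L (Fin n)) i) =
          ϖ ^ j • emb L n ((Pi.basisFun L (Fin n)) i) :=
        ((emb L n).restrictScalars A).map_smul _ _
      rw [h4]
      apply h1
      intro k
      refine ⟨fun hk => emb_ge n _ k hk, ?_⟩
      by_cases hk : k < n
      · rw [emb_lt n _ k hk, Pi.basisFun_apply]
        by_cases hik : i = ⟨k, hk⟩
        · exact ⟨1, by rw [hik, Pi.single_eq_same, map_one]⟩
        · exact ⟨0, by rw [Pi.single_eq_of_ne (Ne.symm hik), map_zero]⟩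
      · exact ⟨0, by rw [emb_ge n _ k (by omega), map_zero]⟩
    have h5 : (Pi.basisFun L (Fin n)) i =
        (algebraMap A L (ϖ ^ j))⁻¹ • (ϖ ^ j • (Pi.basisFun L (Fin n)) i) := by
      rw [← algebraMap_smul L (ϖ ^ j), smul_smul, inv_mul_cancel₀ hpow, one_smul]
    rw [h5]
    exact Submodule.smul_mem _ _ (Submodule.subset_span h3)

/-- **colengths in `Ln n` are at most `n / 2`** -/
theorem two_elen_Ln (hϖ : Irreducible ϖ) {n : ℕ} {Λ Λ' : Lt A L} (h : Λ ∈ Ln ϖ n)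
    (h' : Λ' ∈ Ln ϖ n) (hle : Λ ≤ Λ') :
    2 * elen (Λ : Submodule A (ℕ →₀ L)) (Λ' : Submodule A (ℕ →₀ L)) ≤ n := by
  have := Ln_isLattice hϖ h
  have := Ln_isLattice hϖ h'
  rw [← elen_cm (Ln_le hϖ h) (Ln_le hϖ h')]
  have h1 := two_elen_le (O := A) (L := L) (V := Fin n → L) (stB_nondeg n) (stB_symm n) hϖ
    (M := cm n Λ) (N := cm n Λ') (Submodule.comap_mono hle) ?_ ?_
  · rw [Module.finrank_fin_fun] at h1
    exact h1
  · intro x hx
    have h2 := h.2.2 _ ((mem_cm_dual (Ln_le hϖ h) x).mp hx)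
    change emb L n (ϖ • x) ∈ (Λ : Submodule A (ℕ →₀ L))
    have h3 : emb L n (ϖ • x) = ϖ • emb L n x := ((emb L n).restrictScalars A).map_smul _ _
    rw [h3]
    exact h2
  · intro x hx
    exact (mem_cm_dual (Ln_le hϖ h') x).mpr (h'.2.1 hx)

theorem elen_ne_top (hϖ : Irreducible ϖ) {n : ℕ} {Λ Λ' : Lt A L} (h : Λ ∈ Ln ϖ n)
    (h' : Λ' ∈ Ln ϖ n) (hle : Λ ≤ Λ') :
    elen (Λ : Submodule A (ℕ →₀ L)) (Λ' : Submodule A (ℕ →₀ L)) ≠ ⊤ := by
  intro ht
  have h1 := two_elen_Ln hϖ h h' hle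
  rw [ht] at h1
  have h2 : (2 : ℕ∞) * ⊤ = ⊤ := ENat.mul_top (by norm_num)
  rw [h2, top_le_iff] at h1
  exact ENat.coe_ne_top n h1

theorem coe_len (hϖ : Irreducible ϖ) {n : ℕ} {Λ Λ' : Lt A L} (h : Λ ∈ Ln ϖ n)
    (h' : Λ' ∈ Ln ϖ n) (hle : Λ ≤ Λ') : ((len Λ Λ' : ℕ) : ℕ∞) = elen Λ Λ' :=
  ENat.coe_toNat (elen_ne_top hϖ h h' hle)

theorem two_len_Ln (hϖ : Irreducible ϖ) {n : ℕ} {Λ Λ' : Lt A L} (h : Λ ∈ Ln ϖ n)
    (h' : Λ' ∈ Ln ϖ n) (hle : Λ ≤ Λ') : 2 * len Λ Λ' ≤ n := by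
  have h1 := two_elen_Ln hϖ h h' hle
  rw [← coe_len hϖ h h' hle] at h1
  exact_mod_cast h1

theorem len_add_Ln (hϖ : Irreducible ϖ) {n : ℕ} {Λ Λ' Λ'' : Lt A L} (h : Λ ∈ Ln ϖ n)
    (h' : Λ' ∈ Ln ϖ n) (h'' : Λ'' ∈ Ln ϖ n) (h1 : Λ ≤ Λ') (h2 : Λ' ≤ Λ'') :
    len Λ Λ'' = len Λ Λ' + len Λ' Λ'' := by
  have e := elen_add (A := Λ) (B := Λ') (C := Λ'') h1 h2
  rw [← coe_len hϖ h h' h1, ← coe_len hϖ h' h'' h2, ← coe_len hϖ h h'' (h1.trans h2)] at e
  exact_mod_cast e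

theorem eq_of_len_zero (hϖ : Irreducible ϖ) {n : ℕ} {Λ Λ' : Lt A L} (h : Λ ∈ Ln ϖ n)
    (h' : Λ' ∈ Ln ϖ n) (hle : Λ ≤ Λ') (h0 : len Λ Λ' = 0) : Λ = Λ' := by
  apply eq_of_elen_zero hle
  rw [← coe_len hϖ h h' hle, h0]
  rfl

theorem len_one_iff (hϖ : Irreducible ϖ) {n : ℕ} {Λ Λ' : Lt A L} (h : Λ ∈ Ln ϖ n)
    (h' : Λ' ∈ Ln ϖ n) (hle : Λ ≤ Λ') : len Λ Λ' = 1 ↔ Λ ⋖ Λ' := by
  rw [← elen_one_iff (A := Λ) (B := Λ') hle, ← coe_len hϖ h h' hle]
  exact_mod_cast Iff.rfl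

end St16B3
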