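import Pool.Agent.LibSt16B3.Lead
import Pool.Agent.LibST82.G0
import Pool.Agent.LibSt16.Sy

/-!
# The family of data on the system of lattices (block III of MP_8b67e9)
-/

set_option autoImplicit false

noncomputable section

namespace St16B3

open IsLocalRing
open St16 (Vc Au Lt On Ln jnL shA sysL Fam)

variable {A : Type} (L : Type) [CommRing A] [IsDomain A] [IsDiscreteValuationRing A] [Field L]
  [Algebra A L] [IsFractionRing A L] (ϖ : A) (hϖ : Irreducible ϖ)
  (al be : (ResidueField A)ˣ →* Multiplicative ℚ)

/-- **the family of data on `sysL`** -/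
def latFam : Fam (sysL L ϖ hϖ) where
  D := latD L ϖ hϖ al be
  rk := fun _ => rfl
  gm := fun _ _ h => h
  pm := fun _ _ h => h
  le := fun _ _ _ h => h
  T := latB hϖ al be
  T_gs := fun _ _ _ _ => rfl
  T_ls := fun _ _ _ _ => rfl
  inv_len := fun n g x y _ _ _ _ => latD_len_smul hϖ al be n g x y
  inv_A := fun n g h h' x y _ _ _ hx hy hle h1 => latD_A_smul hϖ al be n g h h' x y hx hy hle h1
  inv_B := fun n g h h' x y _ _ _ hx hy hle h1 => latD_B_smul hϖ al be n g h h' x y hx hy hle h1

end St16B3
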