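import Pool.Agent.LibSt16B3.Col
import Pool.Agent.LibST82.D

/-!
# The lattice half of block III (MP_8b67e9): data, block sums, invariance, evaluation
-/

set_option autoImplicit false

namespace St16B3

open IsLocalRing
open St16 (Vc Au Lt On Ln jnL shA dot Mn dual ee unV)

/-! ### evaluation -/

section

variable {O L : Type} [CommRing O] [Field L] [Algebra O L] [IsLocalRing O]
  {A B : Submodule O (ℕ →₀ L)}

/-- `w` commutes with `g`, preserves both lattices and multiplies the quotient by `c` -/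
theorem uu_comm (h : A ⋖ B) (g w : GV L) (hw : g * w = w * g) (hA : act w A = A)
    (hB : act w B = B) (c : Oˣ) (hc : ∀ x ∈ B, w x - (c : O) • x ∈ A) :
    uu g (g * w) A B = Units.map (residue O : O →* ResidueField O) c := by
  have e : ∀ C : Submodule O (ℕ →₀ L), act w C = C → act w (act g⁻¹ C) = act g⁻¹ C := by
    intro C hC
    have h1 : w * g⁻¹ = g⁻¹ * w := by
      rw [eq_inv_mul_iff_mul_eq, ← mul_assoc, hw, mul_assoc, mul_inv_cancel, mul_one]
    rw [← act_mul, h1, act_mul, hC]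
  refine uu_eval h g w (e A hA) (e B hB) c fun x hx => ?_
  have h1 : g x ∈ B := by
    rw [← apply_mem_act (g := g), act_act_inv] at hx
    exact hx
  have h2 := hc _ h1
  have h3 : w (g x) = g (w x) := (DFunLike.congr_fun hw x).symm
  rw [h3] at h2
  rw [← apply_mem_act (g := g), act_act_inv, map_sub]
  have h4 : g ((c : O) • x) = (c : O) • g x :=
    ((g.toLinearMap : (ℕ →₀ L) →ₗ[L] (ℕ →₀ L)).restrictScalars O).map_smul _ _
  rw [h4]
  exact h2

end

/-! ### block sums in terms of `LibSt16` -/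

section

variable {A L : Type} [CommRing A] [Field L] [Algebra A L]

theorem shV_eq (n : ℕ) (x : ℕ →₀ L) : St16.shV n x = shV A n x := by
  change Finsupp.mapDomain (fun i => n + i) x = Finsupp.mapDomain (· + n) x
  congr 1
  funext i
  exact Nat.add_comm _ _

theorem jnL_eq (n : ℕ) (a b : Lt A L) : jnL n a b = a ⊔ Submodule.map (shV A n) b := by
  have e : ((St16.shV n).restrictScalars A : (ℕ →₀ L) →ₗ[A] (ℕ →₀ L)) = shV A n :=
    LinearMap.ext fun x => shV_eq n x
  unfold jnL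
  rw [e]

end

theorem On_shV {L : Type} [Field L] {n : ℕ} {g : Au L} (hg : g ∈ On L n) (x : ℕ →₀ L) :
    g (St16.shV n x) = St16.shV n x := by
  have : g.toLinearMap ∘ₗ St16.shV n = (St16.shV n : (ℕ →₀ L) →ₗ[L] (ℕ →₀ L)) := by
    refine Finsupp.lhom_ext' fun i => LinearMap.ext_ring ?_
    change g (St16.shV n (ee i)) = St16.shV n (ee i)
    rw [St16.shV_ee]
    exact hg.2 _ (Nat.le_add_right n i)
  exact DFunLike.congr_fun this x

theorem isBlock {L : Type} [Field L] {n : ℕ} {g : Au L} (hg : g ∈ On L n) (h : Au L) :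
    IsBlock n g h (g * shA n h) where
  low := by
    intro x hx
    change g (shA n h x) = g x
    rw [St16.shA_apply]
    have h0 : unV n x = 0 := by
      ext j
      exact hx (n + j) (Nat.le_add_right n j)
    rw [h0, map_zero, map_zero, sub_zero, map_zero, add_zero]
  high := by
    intro x
    change g (shA n h (shV ℤ n x)) = shV ℤ n (h x)
    rw [← shV_eq, ← shV_eq, St16.shA_shV, On_shV hg]
  pres := fun x hx => St16.On_low n g hg x hx
  pres' := fun x hx => St16.On_low n g⁻¹ (inv_mem hg) x hx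

/-! ### the data -/

section

variable {A L : Type} [CommRing A] [IsDomain A] [IsDiscreteValuationRing A] [Field L] [Algebra A L]
  [IsFractionRing A L] {ϖ : A}

/-- the value of a homomorphism to `ℚ` -/
noncomputable def va (al : (ResidueField A)ˣ →* Multiplicative ℚ) (u : (ResidueField A)ˣ) : ℚ :=
  Multiplicative.toAdd (al u)

theorem va_mul (al : (ResidueField A)ˣ →* Multiplicative ℚ) (u v : (ResidueField A)ˣ) :
    va al (u * v) = va al u + va al v := by
  unfold va
  rw [map_mul]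
  rfl

theorem va_one (al : (ResidueField A)ˣ →* Multiplicative ℚ) : va al 1 = 0 := by
  unfold va
  rw [map_one]
  rfl

/-- **the data of block III in rank `n`** -/
noncomputable def latD (L : Type) [Field L] [Algebra A L] [IsFractionRing A L] (ϖ : A)
    (hϖ : Irreducible ϖ) (al be : (ResidueField A)ˣ →* Multiplicative ℚ)
    (n : ℕ) : ST82.Datum (Au L) (Lt A L) where
  rk := n
  gm := fun g => g ∈ On L n
  pm := fun a => a ∈ Ln ϖ n
  le := fun a b => a ≤ b
  len := fun a b => len a b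
  A := fun g g' a b => va al (uu g g' a b)
  B := fun g g' a b => va be (uu g g' a b)
  len_add := fun _ _ _ hx hy hz h1 h2 => len_add_Ln hϖ hx hy hz h1 h2
  len_eq := fun _ _ hx hy h h0 => eq_of_len_zero hϖ hx hy h h0
  len_le := fun _ _ hx hy h => two_len_Ln hϖ hx hy h
  A_add := fun g g' g'' x y _ _ _ hx hy hle h1 => by
    rw [← va_mul, uu_mul ((len_one_iff hϖ hx hy hle).mp h1)]
  B_add := fun g g' g'' x y _ _ _ hx hy hle h1 => by
    rw [← va_mul, uu_mul ((len_one_iff hϖ hx hy hle).mp h1)]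

variable (hϖ : Irreducible ϖ)

include hϖ in
theorem len_jnL {n n' : ℕ} {x x' y y' : Lt A L} (hx : x ∈ Ln ϖ n) (hx' : x' ∈ Ln ϖ n) (h : x ≤ x')
    (hy : y ∈ Ln ϖ n') (hy' : y' ∈ Ln ϖ n') (h' : y ≤ y') :
    len (jnL n x y) (jnL n x' y') = len x x' + len y y' := by
  have e : elen (jnL n x y : Submodule A (ℕ →₀ L)) (jnL n x' y') =
      elen (x : Submodule A (ℕ →₀ L)) x' + elen (y : Submodule A (ℕ →₀ L)) y' := by
    rw [jnL_eq, jnL_eq]
    exact elen_block (Ln_le hϖ hx') h h'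
  rw [← coe_len hϖ hx hx' h, ← coe_len hϖ hy hy' h', ← coe_len hϖ
    (St16.jnL_mem ϖ hϖ n n' x y hx hy) (St16.jnL_mem ϖ hϖ n n' x' y' hx' hy')
    (St16.jnL_mono n x x' y y' h h')] at e
  exact_mod_cast e

include hϖ in
theorem uu_jnL_low {n : ℕ} {g g' h h' : Au L} {x x' y : Lt A L} (hg : g ∈ On L n)
    (hg' : g' ∈ On L n) (hx : x ∈ Ln ϖ n) (hx' : x' ∈ Ln ϖ n) (hle : x ≤ x')
    (h1 : len x x' = 1) :
    uu (g * shA n h) (g' * shA n h') (jnL n x y : Submodule A (ℕ →₀ L)) (jnL n x' y) =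
      uu g g' (x : Submodule A (ℕ →₀ L)) x' := by
  rw [jnL_eq, jnL_eq]
  exact uu_low ((len_one_iff hϖ hx hx' hle).mp h1) (Ln_le hϖ hx') (isBlock hg h) (isBlock hg' h')

include hϖ in
theorem uu_jnL_high {n n' : ℕ} {g g' h h' : Au L} {x y y' : Lt A L} (hg : g ∈ On L n)
    (hg' : g' ∈ On L n) (hx : x ∈ Ln ϖ n) (hy : y ∈ Ln ϖ n') (hy' : y' ∈ Ln ϖ n')
    (hle : y ≤ y') (h1 : len y y' = 1) :
    uu (g * shA n h) (g' * shA n h') (jnL n x y : Submodule A (ℕ →₀ L)) (jnL n x y') =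
      uu h h' (y : Submodule A (ℕ →₀ L)) y' := by
  rw [jnL_eq, jnL_eq]
  exact uu_high ((len_one_iff hϖ hy hy' hle).mp h1) (Ln_le hϖ hx) (isBlock hg h) (isBlock hg' h')

variable (al be : (ResidueField A)ˣ →* Multiplicative ℚ)

/-- **block sums** -/
noncomputable def latB (n n' : ℕ) :
    ST82.Block (latD L ϖ hϖ al be n) (latD L ϖ hϖ al be n') (latD L ϖ hϖ al be (n + n')) where
  gs := fun g h => g * shA n h
  ls := fun x y => jnL n x y
  len := fun _ _ _ _ hx hx' h hy hy' h' => len_jnL hϖ hx hx' h hy hy' h'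
  A1 := fun g g' h h' x x' y hg hg' _ _ hx hx' hle h1 hy =>
    congrArg (va al) (uu_jnL_low hϖ hg hg' hx hx' hle h1)
  B1 := fun g g' h h' x x' y hg hg' _ _ hx hx' hle h1 hy =>
    congrArg (va be) (uu_jnL_low hϖ hg hg' hx hx' hle h1)
  A2 := fun g g' h h' x y y' hg hg' _ _ hx hy hy' hle h1 =>
    congrArg (va al) (uu_jnL_high (n' := n') hϖ hg hg' hx hy hy' hle h1)
  B2 := fun g g' h h' x y y' hg hg' _ _ hx hy hy' hle h1 =>
    congrArg (va be) (uu_jnL_high (n' := n') hϖ hg hg' hx hy hy' hle h1)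

/-! ### invariance -/

theorem smul_eq_act (g : Au L) (a : Lt A L) : g • a = act g a := rfl

theorem latD_len_smul (n : ℕ) (h : Au L) (x y : Lt A L) :
    (latD L ϖ hϖ al be n).len (h • x) (h • y) = (latD L ϖ hϖ al be n).len x y := by
  change (elen (act h x) (act h y)).toNat = (elen _ _).toNat
  rw [act_elen]

theorem latD_A_smul (n : ℕ) (h g g' : Au L) (x y : Lt A L) (hx : x ∈ Ln ϖ n) (hy : y ∈ Ln ϖ n)
    (hle : x ≤ y) (h1 : (latD L ϖ hϖ al be n).len x y = 1) :
    (latD L ϖ hϖ al be n).A (h * g) (h * g') (h • x) (h • y) = (latD L ϖ hϖ al be n).A g g' x y :=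
  congrArg (va al) (uu_act ((len_one_iff hϖ hx hy hle).mp h1) h g g')

theorem latD_B_smul (n : ℕ) (h g g' : Au L) (x y : Lt A L) (hx : x ∈ Ln ϖ n) (hy : y ∈ Ln ϖ n)
    (hle : x ≤ y) (h1 : (latD L ϖ hϖ al be n).len x y = 1) :
    (latD L ϖ hϖ al be n).B (h * g) (h * g') (h • x) (h • y) = (latD L ϖ hϖ al be n).B g g' x y :=
  congrArg (va be) (uu_act ((len_one_iff hϖ hx hy hle).mp h1) h g g')

/-! ### evaluation -/

/-- `w` commutes with `g`, preserves `x ≤ y` (colength one) and multiplies `y / x` by the unit `c`: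
`A g (g w) x y = al (c mod ϖ)` -/
theorem latD_A_eval (n : ℕ) (g w : Au L) (x y : Lt A L) (hx : x ∈ Ln ϖ n) (hy : y ∈ Ln ϖ n)
    (hle : x ≤ y) (h1 : (latD L ϖ hϖ al be n).len x y = 1) (hw : g * w = w * g) (hwx : w • x = x)
    (hwy : w • y = y) (c : Aˣ)
    (hc : ∀ v ∈ (y : Submodule A (Vc L)), w v - (c : A) • v ∈ (x : Submodule A (Vc L))) :
    (latD L ϖ hϖ al be n).A g (g * w) x y =
      va al (Units.map (residue A : A →* ResidueField A) c) :=
  congrArg (va al) (uu_comm ((len_one_iff hϖ hx hy hle).mp h1) g w hw hwx hwy c hc)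

theorem latD_B_eval (n : ℕ) (g w : Au L) (x y : Lt A L) (hx : x ∈ Ln ϖ n) (hy : y ∈ Ln ϖ n)
    (hle : x ≤ y) (h1 : (latD L ϖ hϖ al be n).len x y = 1) (hw : g * w = w * g) (hwx : w • x = x)
    (hwy : w • y = y) (c : Aˣ)
    (hc : ∀ v ∈ (y : Submodule A (Vc L)), w v - (c : A) • v ∈ (x : Submodule A (Vc L))) :
    (latD L ϖ hϖ al be n).B g (g * w) x y =
      va be (Units.map (residue A : A →* ResidueField A) c) :=
  congrArg (va be) (uu_comm ((len_one_iff hϖ hx hy hle).mp h1) g w hw hwx hwy c hc)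

end

end St16B3
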