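import Pool.Agent.LibSt16B3.Lat

/-!
# The leading coefficient (block III of MP_8b67e9)
-/

set_option autoImplicit false

namespace St16B3

open IsLocalRing
open St16 (Vc Au Lt On Ln)

section

variable {O L : Type} [CommRing O] [Field L] [Algebra O L] [IsLocalRing O]

/-- the leading coefficient of `v ∈ B`, `v ∉ A`, for a pair `A ⋖ B` -/
noncomputable def lead (A B : Submodule O (ℕ →₀ L)) (v : ℕ →₀ L) : (ResidueField O)ˣ :=
  ratio A (gen A B) v

variable {A B : Submodule O (ℕ →₀ L)}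

/-- the leading coefficient depends on the class only -/
theorem lead_congr (h : A ⋖ B) {v v' : ℕ →₀ L} (hv : v ∈ B) (hvA : v ∉ A) (hs : v' - v ∈ A) :
    lead A B v' = lead A B v :=
  ratio_congr h (gen_lead h.lt).1 ((gen_lead h.lt).not_mem h.lt) hv hvA (by
    rw [sub_self]
    exact A.zero_mem) hs

/-- homogeneity -/
theorem lead_smul (h : A ⋖ B) {v : ℕ →₀ L} (hv : v ∈ B) (hvA : v ∉ A) (c : Oˣ) :
    lead A B ((c : O) • v) =
      Units.map (residue O : O →* ResidueField O) c * lead A B v := by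
  have h1 := gen_lead h.lt
  have h2 := h1.not_mem h.lt
  obtain ⟨e, he⟩ := exists_unit h h1.1 h2 hv hvA
  have h3 : (c : O) • v - ((c * e : Oˣ) : O) • gen A B ∈ A := by
    rw [Units.val_mul, mul_smul, ← smul_sub]
    exact A.smul_mem _ he
  unfold lead
  rw [ratio_eq h h1.1 h2 he, ratio_eq h h1.1 h2 h3, map_mul]

theorem inv_mem' {g : GV L} {v : ℕ →₀ L} (hv : v ∈ B) : g⁻¹ v ∈ act g⁻¹ B :=
  apply_mem_act.mpr hv

/-- **the cocycle in terms of leading coefficients** -/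
theorem uu_lead (h : A ⋖ B) (g g' : GV L) {v : ℕ →₀ L} (hv : v ∈ B) (hvA : v ∉ A) :
    uu g g' A B = lead (act g⁻¹ A) (act g⁻¹ B) (g⁻¹ v) / lead (act g'⁻¹ A) (act g'⁻¹ B) (g'⁻¹ v) := by
  have key : ∀ k : GV L, lead (act k⁻¹ A) (act k⁻¹ B) (k⁻¹ v) =
      ratio A (k (gen (act k⁻¹ A) (act k⁻¹ B))) v := by
    intro k
    have hk : act k⁻¹ A ⋖ act k⁻¹ B := act_covBy k⁻¹ h
    have h1 := gen_lead hk.lt
    have h2 := h1.not_mem hk.lt
    have h3 : k⁻¹ v ∉ act k⁻¹ A := fun hn => hvA (apply_mem_act.mp hn)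
    have e : k (k⁻¹ v) = v := k.apply_symm_apply v
    have h4 := ratio_map hk h ((k.toLinearMap : (ℕ →₀ L) →ₗ[L] (ℕ →₀ L)).restrictScalars O)
      (fun w hw => by
        have := apply_mem_act (g := k) |>.mpr hw
        rw [act_act_inv] at this
        exact this)
      (fun w hw => by
        have := apply_mem_act (g := k) |>.mpr hw
        rw [act_act_inv] at this
        exact this)
      (fun w _ hw => by
        rw [← apply_mem_act (g := k), act_act_inv]
        exact hw) h1.1 h2 (inv_mem' hv) h3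
    have h5 : ((k.toLinearMap : (ℕ →₀ L) →ₗ[L] (ℕ →₀ L)).restrictScalars O) (k⁻¹ v) = v := e
    rw [h5] at h4
    exact h4.symm
  rw [key, key, eq_div_iff_mul_eq']
  have h6 := ratio_mul h (point_mem h.lt g) (point_not_mem h.lt g) (point_mem h.lt g')
    (point_not_mem h.lt g') hv hvA
  exact h6

end

section

variable {A L : Type} [CommRing A] [IsDomain A] [IsDiscreteValuationRing A] [Field L] [Algebra A L]
  [IsFractionRing A L] {ϖ : A} (hϖ : Irreducible ϖ)
  (al be : (ResidueField A)ˣ →* Multiplicative ℚ)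

theorem latD_A_lead (n : ℕ) (g g' : Au L) (x y : Lt A L) (hx : x ∈ Ln ϖ n) (hy : y ∈ Ln ϖ n)
    (hle : x ≤ y) (h1 : (latD L ϖ hϖ al be n).len x y = 1) (v : Vc L)
    (hv : v ∈ (y : Submodule A (Vc L))) (hvx : v ∉ (x : Submodule A (Vc L))) :
    (latD L ϖ hϖ al be n).A g g' x y =
      va al (lead (g⁻¹ • x : Lt A L) (g⁻¹ • y : Lt A L) (g⁻¹ v) /
        lead (g'⁻¹ • x : Lt A L) (g'⁻¹ • y : Lt A L) (g'⁻¹ v)) :=
  congrArg (va al) (uu_lead ((len_one_iff hϖ hx hy hle).mp h1) g g' hv hvx)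

theorem latD_B_lead (n : ℕ) (g g' : Au L) (x y : Lt A L) (hx : x ∈ Ln ϖ n) (hy : y ∈ Ln ϖ n)
    (hle : x ≤ y) (h1 : (latD L ϖ hϖ al be n).len x y = 1) (v : Vc L)
    (hv : v ∈ (y : Submodule A (Vc L))) (hvx : v ∉ (x : Submodule A (Vc L))) :
    (latD L ϖ hϖ al be n).B g g' x y =
      va be (lead (g⁻¹ • x : Lt A L) (g⁻¹ • y : Lt A L) (g⁻¹ v) /
        lead (g'⁻¹ • x : Lt A L) (g'⁻¹ • y : Lt A L) (g'⁻¹ v)) :=
  congrArg (va be) (uu_lead ((len_one_iff hϖ hx hy hle).mp h1) g g' hv hvx)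

/-- colength one means covering -/
theorem latD_len_one (n : ℕ) (x y : Lt A L) (hx : x ∈ Ln ϖ n) (hy : y ∈ Ln ϖ n) (hle : x ≤ y) :
    (latD L ϖ hϖ al be n).len x y = 1 ↔ x ⋖ y := len_one_iff hϖ hx hy hle

/-- a criterion for colength one: `y = x + A v`, `v ∉ x`, `ϖ v ∈ x` -/
theorem len_one_of (n : ℕ) (x y : Lt A L) (hx : x ∈ Ln ϖ n) (hy : y ∈ Ln ϖ n) (hle : x ≤ y)
    (v : Vc L) (hv : v ∈ (y : Submodule A (Vc L))) (hvx : v ∉ (x : Submodule A (Vc L)))
    (hϖv : ϖ • v ∈ (x : Submodule A (Vc L)))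
    (hyv : ∀ w ∈ (y : Submodule A (Vc L)), ∃ a : A, w - a • v ∈ (x : Submodule A (Vc L))) :
    (latD L ϖ hϖ al be n).len x y = 1 := by
  rw [latD_len_one hϖ al be n x y hx hy hle]
  refine ⟨lt_of_le_of_ne hle fun he => hvx (he ▸ hv), fun z hxz hzy => ?_⟩
  -- an element of `z` outside `x` gives `v ∈ z`
  obtain ⟨w, hw, hwx⟩ := SetLike.exists_of_lt hxz
  obtain ⟨a, ha⟩ := hyv w (hzy.le hw)
  have hau : IsUnit a := by
    by_contra hn
    have h1 : a ∈ maximalIdeal A := (mem_maximalIdeal a).mpr hn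
    rw [hϖ.maximalIdeal_eq, Ideal.mem_span_singleton] at h1
    obtain ⟨b, rfl⟩ := h1
    apply hwx
    have h2 : (ϖ * b) • v ∈ (x : Submodule A (Vc L)) := by
      rw [mul_comm, mul_smul]
      exact Submodule.smul_mem _ _ hϖv
    have := Submodule.add_mem _ ha h2
    rwa [sub_add_cancel] at this
  obtain ⟨c, rfl⟩ := hau
  have hvz : v ∈ (z : Submodule A (Vc L)) := by
    have h3 : (c : A) • v ∈ (z : Submodule A (Vc L)) := by
      have := Submodule.sub_mem _ hw (hxz.le ha)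
      rwa [sub_sub_cancel] at this
    have h4 := Submodule.smul_mem _ ((c⁻¹ : Aˣ) : A) h3
    rwa [smul_smul, Units.inv_mul, one_smul] at h4
  apply hzy.not_ge
  intro w hw
  obtain ⟨a, ha⟩ := hyv w hw
  have := Submodule.add_mem _ (hxz.le ha) (Submodule.smul_mem _ a hvz)
  rwa [sub_add_cancel] at this

end

end St16B3
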