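import Pool.Agent.LibSt16B3.Chain

/-!
# Lengths of pairs of submodules (block III of MP_8b67e9)
-/

set_option autoImplicit false

namespace St16B3

section

variable {O V : Type} [CommRing O] [AddCommGroup V] [Module O V]

/-- the length of `B / (A ∩ B)`, in `ℕ∞` -/
noncomputable def elen (A B : Submodule O V) : ℕ∞ := Module.length O (B ⧸ A.comap B.subtype)

/-- the length of `B / (A ∩ B)` -/
noncomputable def len (A B : Submodule O V) : ℕ := (elen A B).toNat

theorem elen_add {A B C : Submodule O V} (h1 : A ≤ B) (h2 : B ≤ C) :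
    elen A C = elen A B + elen B C := by
  unfold elen
  let f : (B ⧸ A.comap B.subtype) →ₗ[O] (C ⧸ A.comap C.subtype) :=
    Submodule.mapQ _ _ (Submodule.inclusion h2) (fun x hx => hx)
  let g : (C ⧸ A.comap C.subtype) →ₗ[O] (C ⧸ B.comap C.subtype) :=
    Submodule.mapQ _ _ LinearMap.id (fun x hx => h1 hx)
  have hf : Function.Injective f := by
    rw [← LinearMap.ker_eq_bot, LinearMap.ker_eq_bot']
    intro x hx
    obtain ⟨x, rfl⟩ := Submodule.mkQ_surjective _ x
    rw [Submodule.mkQ_apply, Submodule.mapQ_apply, Submodule.Quotient.mk_eq_zero] at hx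
    rw [Submodule.mkQ_apply, Submodule.Quotient.mk_eq_zero]
    exact hx
  have hg : Function.Surjective g := by
    intro y
    obtain ⟨y, rfl⟩ := Submodule.mkQ_surjective _ y
    exact ⟨Submodule.mkQ _ y, rfl⟩
  have he : Function.Exact f g := by
    intro y
    obtain ⟨y, rfl⟩ := Submodule.mkQ_surjective _ y
    constructor
    · intro hy
      rw [Submodule.mkQ_apply, Submodule.mapQ_apply, Submodule.Quotient.mk_eq_zero] at hy
      exact ⟨Submodule.mkQ _ ⟨y.1, hy⟩, rfl⟩
    · rintro ⟨x, hx⟩
      obtain ⟨x, rfl⟩ := Submodule.mkQ_surjective _ x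
      rw [← hx, Submodule.mkQ_apply, Submodule.mapQ_apply, Submodule.mapQ_apply,
        Submodule.Quotient.mk_eq_zero]
      exact x.2
  exact Module.length_eq_add_of_exact f g hf hg he

theorem elen_self (A : Submodule O V) : elen A A = 0 := by
  unfold elen
  rw [Module.length_eq_zero_iff]
  rw [Submodule.Quotient.subsingleton_iff]
  simp

theorem eq_of_elen_zero {A B : Submodule O V} (h : A ≤ B) (h0 : elen A B = 0) : A = B := by
  unfold elen at h0
  rw [Module.length_eq_zero_iff, Submodule.Quotient.subsingleton_iff] at h0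
  refine le_antisymm h fun x hx => ?_
  have : (⟨x, hx⟩ : B) ∈ A.comap B.subtype := by
    rw [h0]
    trivial
  exact this

theorem elen_one_iff {A B : Submodule O V} (h : A ≤ B) : elen A B = 1 ↔ A ⋖ B := by
  rw [covBy_iff_quot_is_simple h]
  exact Module.length_eq_one_iff

theorem elen_map {W : Type} [AddCommGroup W] [Module O W] (e : V →ₗ[O] W)
    (he : Function.Injective e) (A B : Submodule O V) : elen (A.map e) (B.map e) = elen A B := by
  unfold elen
  let e1 : B ≃ₗ[O] B.map e := Submodule.equivMapOfInjective e he B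
  refine (LinearEquiv.length_eq (Submodule.Quotient.equiv _ _ e1 ?_)).symm
  ext x
  constructor
  · rintro ⟨y, hy, rfl⟩
    exact ⟨y.1, hy, rfl⟩
  · rintro ⟨y, hy, hyx⟩
    obtain ⟨z, rfl⟩ := e1.surjective x
    refine ⟨z, ?_, rfl⟩
    have : y = z.1 := he hyx
    change z.1 ∈ A
    rw [← this]
    exact hy

/-- a chain that realises the length -/
theorem exists_chain {A B : Submodule O V} (h : A ≤ B) (r : ℕ) (hr : (r : ℕ∞) ≤ elen A B) :
    ∃ Λ : ℕ → Submodule O V, (∀ i ≤ r, A ≤ Λ i ∧ Λ i ≤ B) ∧ ∀ i < r, Λ i < Λ (i + 1) := by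
  unfold elen at hr
  rw [Module.length_eq_height] at hr
  obtain ⟨s, -, hs⟩ := Order.exists_series_of_le_height _ hr
  have hmk : Function.Surjective (A.comap B.subtype).mkQ := Submodule.mkQ_surjective _
  let F : Submodule O (B ⧸ A.comap B.subtype) → Submodule O V := fun P =>
    (P.comap (A.comap B.subtype).mkQ).map B.subtype
  have hF : StrictMono F := by
    intro P Q hPQ
    have h1 : P.comap (A.comap B.subtype).mkQ < Q.comap (A.comap B.subtype).mkQ := by
      refine lt_of_le_of_ne (Submodule.comap_mono hPQ.le) fun he => hPQ.ne ?_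
      exact Submodule.comap_injective_of_surjective hmk he
    refine lt_of_le_of_ne (Submodule.map_mono h1.le) fun he => h1.ne ?_
    exact Submodule.map_injective_of_injective (Submodule.subtype_injective B) he
  have hAF : ∀ P, A ≤ F P := by
    intro P x hx
    refine ⟨⟨x, h hx⟩, ?_, rfl⟩
    change (A.comap B.subtype).mkQ ⟨x, h hx⟩ ∈ P
    have : (A.comap B.subtype).mkQ (⟨x, h hx⟩ : B) = 0 := by
      rw [Submodule.mkQ_apply, Submodule.Quotient.mk_eq_zero]
      exact hx
    rw [this]
    exact P.zero_mem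
  have hFB : ∀ P, F P ≤ B := by
    rintro P _ ⟨x, -, rfl⟩
    exact x.2
  refine ⟨fun i => if hi : i < s.length + 1 then F (s ⟨i, hi⟩) else B, fun i hi => ?_, fun i hi => ?_⟩
  · have hi' : i < s.length + 1 := by omega
    simp only [dif_pos hi']
    exact ⟨hAF _, hFB _⟩
  · have h1 : i < s.length + 1 := by omega
    have h2 : i + 1 < s.length + 1 := by omega
    simp only [dif_pos h1, dif_pos h2]
    apply hF
    exact s.strictMono (by simp [Fin.lt_def])

end

section

variable {O L V : Type} [CommRing O] [IsDomain O] [IsDiscreteValuationRing O] [Field L]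
  [Algebra O L] [IsFractionRing O L] [AddCommGroup V] [Module L V] [Module O V]
  [IsScalarTower O L V] [FiniteDimensional L V]

open Submodule LinearMap.BilinForm

/-- **lengths of pairs of almost self-dual lattices** -/
theorem two_elen_le {B : LinearMap.BilinForm L V} (hB : B.Nondegenerate) (hs : B.IsSymm) {ϖ : O}
    (hϖ : Irreducible ϖ) {M N : Submodule O V} [hM : IsLattice L M] [hN : IsLattice L N]
    (h : M ≤ N) (h1 : ∀ x ∈ B.dualSubmodule M, ϖ • x ∈ M) (h2 : N ≤ B.dualSubmodule N) :
    2 * elen M N ≤ Module.finrank L V := by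
  have key : ∀ r : ℕ, (r : ℕ∞) ≤ elen M N → 2 * r ≤ Module.finrank L V := by
    intro r hr
    obtain ⟨Λ, hΛ, hlt⟩ := exists_chain h r hr
    refine chain_bound hB hs hϖ r Λ (fun i hi => ?_) ?_ ?_ hlt
    · obtain ⟨h3, h4⟩ := hΛ i hi
      exact ⟨Submodule.FG.of_le hN.fg h4, by
        rw [eq_top_iff, ← hM.span_eq_top]
        exact Submodule.span_mono h3⟩
    · intro x hx
      exact (hΛ 0 (Nat.zero_le _)).1 (h1 x fun y hy => hx y ((hΛ 0 (Nat.zero_le _)).1 hy))
    · intro x hx y hy
      exact h2 ((hΛ r le_rfl).2 hx) y ((hΛ r le_rfl).2 hy)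
  by_cases ht : elen M N = ⊤
  · exfalso
    have := key (Module.finrank L V + 1) (by rw [ht]; exact le_top)
    omega
  · obtain ⟨r, hr⟩ := ENat.ne_top_iff_exists.mp ht
    have := key r (le_of_eq hr)
    rw [← hr]
    exact_mod_cast this

end

end St16B3
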