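import Mathlib

/-!
# Ratios in simple quotients (block III of MP_8b67e9)

`O` local ring, `A ⋖ B` submodules: for `x, y ∈ B \ A` the class `ratio A x y` of the units `c` with
`y - c x ∈ A`.
-/

set_option autoImplicit false

namespace St16B3

open IsLocalRing

variable {O V : Type} [CommRing O] [IsLocalRing O] [AddCommGroup V] [Module O V]

theorem covBy_smul {A B : Submodule O V} (h : A ⋖ B) {c : O} (hc : c ∈ maximalIdeal O) {x : V}
    (hx : x ∈ B) : c • x ∈ A := by
  by_contra hn
  -- `B = A + O c x`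
  have h1 : A < A ⊔ Submodule.span O {c • x} :=
    lt_of_le_of_ne le_sup_left fun he => hn (by
      rw [he]
      exact Submodule.mem_sup_right (Submodule.mem_span_singleton_self _))
  have h2 : A ⊔ Submodule.span O {c • x} ≤ B :=
    sup_le h.le (by
      rw [Submodule.span_singleton_le_iff_mem]
      exact B.smul_mem _ hx)
  have h3 : A ⊔ Submodule.span O {c • x} = B := (h.eq_or_eq h1.le h2).resolve_left h1.ne'
  rw [← h3] at hx
  obtain ⟨a, ha, z, hz, hxz⟩ := Submodule.mem_sup.mp hx
  obtain ⟨r, rfl⟩ := Submodule.mem_span_singleton.mp hz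
  -- `(1 - r c) x = a`
  have h4 : (1 - r * c) • x = a := by
    rw [sub_smul, one_smul, mul_smul]
    rw [sub_eq_iff_eq_add]
    exact hxz.symm
  have hu : IsUnit (1 - r * c) := by
    rw [← not_not (a := IsUnit (1 - r * c)), ← mem_nonunits_iff, ← mem_maximalIdeal]
    intro hm
    have : (1 : O) ∈ maximalIdeal O := by
      have := Ideal.add_mem _ hm (Ideal.mul_mem_left _ r hc)
      simpa using this
    exact (Ideal.ne_top_iff_one _).mp (maximalIdeal.isMaximal O).ne_top this
  obtain ⟨w, hw⟩ := hu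
  have h5 : x = ((w⁻¹ : Oˣ) : O) • a := by
    rw [← h4, ← hw, smul_smul, Units.inv_mul, one_smul]
  apply hn
  rw [h5]
  exact A.smul_mem _ (A.smul_mem _ ha)

theorem exists_unit {A B : Submodule O V} (h : A ⋖ B) {x y : V} (hx : x ∈ B) (hxA : x ∉ A)
    (hy : y ∈ B) (hyA : y ∉ A) : ∃ c : Oˣ, y - (c : O) • x ∈ A := by
  have h1 : A < A ⊔ Submodule.span O {x} :=
    lt_of_le_of_ne le_sup_left fun he => hxA (by
      rw [he]
      exact Submodule.mem_sup_right (Submodule.mem_span_singleton_self _))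
  have h2 : A ⊔ Submodule.span O {x} ≤ B :=
    sup_le h.le (by
      rw [Submodule.span_singleton_le_iff_mem]
      exact hx)
  have h3 : A ⊔ Submodule.span O {x} = B := (h.eq_or_eq h1.le h2).resolve_left h1.ne'
  rw [← h3] at hy
  obtain ⟨a, ha, z, hz, hyz⟩ := Submodule.mem_sup.mp hy
  obtain ⟨r, rfl⟩ := Submodule.mem_span_singleton.mp hz
  have hr : IsUnit r := by
    by_contra hn
    apply hyA
    rw [← hyz]
    exact A.add_mem ha (covBy_smul h ((mem_maximalIdeal r).mpr hn) hx)
  obtain ⟨c, rfl⟩ := hr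
  refine ⟨c, ?_⟩
  rw [← hyz, add_sub_cancel_right]
  exact ha

theorem unit_unique {A B : Submodule O V} (h : A ⋖ B) {x y : V} (hx : x ∈ B) (hxA : x ∉ A)
    {c c' : Oˣ} (h1 : y - (c : O) • x ∈ A) (h2 : y - (c' : O) • x ∈ A) :
    Units.map (residue O : O →* ResidueField O) c =
      Units.map (residue O : O →* ResidueField O) c' := by
  apply Units.ext
  change residue O (c : O) = residue O (c' : O)
  rw [← sub_eq_zero, ← map_sub, residue_eq_zero_iff, mem_maximalIdeal, mem_nonunits_iff]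
  rintro ⟨w, hw⟩
  apply hxA
  have h3 : ((c' : O) - (c : O)) • x ∈ A := by
    have := A.sub_mem h1 h2
    rw [sub_sub_sub_cancel_left] at this
    rw [sub_smul]
    exact this
  have h4 : (w : O) • x ∈ A := by
    rw [hw]
    have := A.neg_mem h3
    rw [← neg_smul, neg_sub] at this
    exact this
  have h5 : x = ((w⁻¹ : Oˣ) : O) • ((w : O) • x) := by
    rw [smul_smul, Units.inv_mul, one_smul]
  rw [h5]
  exact A.smul_mem _ h4

open Classical in
/-- the class of the units `c` with `y - c x ∈ A` -/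
noncomputable def ratio (A : Submodule O V) (x y : V) : (ResidueField O)ˣ :=
  if h : ∃ c : Oˣ, y - (c : O) • x ∈ A then
    Units.map (residue O : O →* ResidueField O) h.choose else 1

theorem ratio_eq {A B : Submodule O V} (h : A ⋖ B) {x y : V} (hx : x ∈ B) (hxA : x ∉ A) {c : Oˣ}
    (hc : y - (c : O) • x ∈ A) :
    ratio A x y = Units.map (residue O : O →* ResidueField O) c := by
  unfold ratio
  rw [dif_pos ⟨c, hc⟩]
  exact unit_unique h hx hxA (Exists.choose_spec (⟨c, hc⟩ : ∃ c : Oˣ, y - (c : O) • x ∈ A)) hc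

theorem ratio_mul {A B : Submodule O V} (h : A ⋖ B) {x y z : V} (hx : x ∈ B) (hxA : x ∉ A)
    (hy : y ∈ B) (hyA : y ∉ A) (hz : z ∈ B) (hzA : z ∉ A) :
    ratio A x y * ratio A y z = ratio A x z := by
  obtain ⟨c, hc⟩ := exists_unit h hx hxA hy hyA
  obtain ⟨e, he⟩ := exists_unit h hy hyA hz hzA
  have h1 : z - ((c * e : Oˣ) : O) • x ∈ A := by
    have : z - ((c * e : Oˣ) : O) • x = (z - (e : O) • y) + (e : O) • (y - (c : O) • x) := by
      rw [smul_sub, smul_smul, Units.val_mul, mul_comm (e : O) (c : O)]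
      abel
    rw [this]
    exact A.add_mem he (A.smul_mem _ hc)
  rw [ratio_eq h hx hxA hc, ratio_eq h hy hyA he, ratio_eq h hx hxA h1, map_mul]

theorem ratio_self {A B : Submodule O V} (h : A ⋖ B) {x : V} (hx : x ∈ B) (hxA : x ∉ A) :
    ratio A x x = 1 := by
  rw [ratio_eq h hx hxA (c := 1) (by simp), map_one]

/-- dependence on the classes only -/
theorem ratio_congr {A B : Submodule O V} (h : A ⋖ B) {x y x' y' : V} (hx : x ∈ B) (hxA : x ∉ A)
    (hy : y ∈ B) (hyA : y ∉ A) (h1 : x' - x ∈ A) (h2 : y' - y ∈ A) :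
    ratio A x' y' = ratio A x y := by
  obtain ⟨c, hc⟩ := exists_unit h hx hxA hy hyA
  have hx' : x' ∈ B := by
    have := B.add_mem (h.le h1) hx
    rwa [sub_add_cancel] at this
  have hxA' : x' ∉ A := fun hn => hxA (by
    have := A.sub_mem hn h1
    rwa [sub_sub_cancel] at this)
  have hc' : y' - (c : O) • x' ∈ A := by
    have : y' - (c : O) • x' = (y' - y) + (y - (c : O) • x) - (c : O) • (x' - x) := by
      rw [smul_sub]
      abel
    rw [this]
    exact A.sub_mem (A.add_mem h2 hc) (A.smul_mem _ h1)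
  rw [ratio_eq h hx hxA hc, ratio_eq h hx' hxA' hc']

/-- transport by an injective map (for instance an automorphism, or an embedding of a block) -/
theorem ratio_map {W : Type} [AddCommGroup W] [Module O W] {A B : Submodule O V}
    {A' B' : Submodule O W} (h : A ⋖ B) (h' : A' ⋖ B') (f : V →ₗ[O] W)
    (hA : ∀ v ∈ A, f v ∈ A') (hB : ∀ v ∈ B, f v ∈ B') (hf : ∀ v ∈ B, f v ∈ A' → v ∈ A) {x y : V}
    (hx : x ∈ B) (hxA : x ∉ A) (hy : y ∈ B) (hyA : y ∉ A) :
    ratio A' (f x) (f y) = ratio A x y := by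
  obtain ⟨c, hc⟩ := exists_unit h hx hxA hy hyA
  have hc' : f y - (c : O) • f x ∈ A' := by
    rw [← map_smul, ← map_sub]
    exact hA _ hc
  rw [ratio_eq h hx hxA hc, ratio_eq h' (hB _ hx) (fun hn => hxA (hf _ hx hn)) hc']

end St16B3
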